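import Pool.Agent.Helper76.FDG.Fdb
import Pool.Agent.Helper87.NJ.St

/-! THE ROW [FDG]: one full form gives rows for every split. -/

set_option autoImplicit false

namespace Pool.Agent.Helper76.FDG

open Finset Filter Topology Matrix Pool.Agent.Helper69.RK Pool.Agent.Helper31.EC Pool.Agent.Helper31.EC.Sp
open Pool.Agent.Helper40.EL Pool.Agent.Helper3.LF Pool.Agent.Helper84.MT
open Pool.Agent.Helper89.LX
open Pool.Agent.Helper14.MC (gexq)
open Pool.Agent.Helper66.NJ (Kn1 gG gG_kn gG_eq zFD)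
open Pool.Agent.Helper76.THK (e00 fsp fpj)
open Pool.Agent.Helper87.NJ (Fuf ROW_FDG)

noncomputable section

variable {S : Sp} {N D : ℕ}

/-- a full form of a label -/
theorem ff_of_fuf {V : ∀ k, Setoid (S.F k).Ω} {Q : S.VV N} {G : ∀ k, (S.F k).Ω → Matrix (Mon N D) (Mon N D) ℝ}
    (x : Fuf V Q D G) : Ff V Q G := by
  have hcp : ∀ᶠ k in UF, ∀ ω, (S.F k).μ ω ≠ 0 → Cpd (2 ^ (((gaq Q D).C + 1) * (S.F k).n)) (G k ω) := by
    filter_upwards [x.fm.1, x.kn] with k h1 h2 ω hω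
    have h3 : Cpd ((gaq Q D).cp k) (gG (V k) (G k) ω) := h1 ω hω
    rw [gG_eq h2] at h3
    exact h3
  have hC : 0 ≤ (gaq Q D).C + 1 := by linarith [(gaq Q D).C0]
  refine ⟨⟨_, hC, hcp⟩, ?_, ?_, ?_⟩
  · filter_upwards [x.kn] with k h1 ω ω' a b c d using h1 ω ω' a b c d
  · intro e he
    show Tendsto (fun k => (S.F k).pb (fun ω => ¬ phi (S.dl 1 k) (G k ω) (Q.v k ω) ≤ 2 ^ (e * (S.F k).n))) UF (𝓝 0)
    rw [Metric.tendsto_nhds]
    intro ε hε
    have hm : 0 < min (ε / 2) e := lt_min (by linarith) he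
    filter_upwards [x.fm.2 _ hm, x.kn] with k a h2
    have hn := (S.F k).pos
    rw [Real.dist_eq, sub_zero, abs_of_nonneg ((S.F k).pb_nonneg _)]
    have a' : (S.F k).pb (fun ω => ¬ (gaq Q D).φ k ω (gG (V k) (G k) ω) ≤ 2 ^ (min (ε / 2) e * (S.F k).n)) ≤
      min (ε / 2) e := a
    rw [gG_eq h2] at a'
    have h1 : (S.F k).pb (fun ω => ¬ phi (S.dl 1 k) (G k ω) (Q.v k ω) ≤ 2 ^ (e * (S.F k).n)) ≤ min (ε / 2) e := by
      refine le_trans (FSp.pb_mono _ ?_) a'
      intro ω _ h2 h3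
      apply h2
      have h4 : phi (S.dl 1 k) (G k ω) (Q.v k ω) ≤ 2 ^ (min (ε / 2) e * (S.F k).n) := h3
      refine h4.trans (Real.rpow_le_rpow_of_exponent_le (by norm_num) ?_)
      exact mul_le_mul_of_nonneg_right (min_le_right _ _) hn.le
    have h2 : min (ε / 2) e ≤ ε / 2 := min_le_left _ _
    linarith
  · have hcp' : ∀ᶠ k in UF, ∀ ω, (S.F k).μ ω ≠ 0 →
        Cpd (2 ^ (((gaq Q D).C + 1) * (S.F k).n)) (gG (V k) (G k) ω) := x.fm.1
    have h1 := fl_of_vol (gexq_UB' hC hcp') x.fu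
    intro ε hε
    filter_upwards [h1 ε hε, x.kn] with k h2 h3
    have e1 : av S (gexq Q (fun k => gG (V k) (G k))) k = av S (gexq Q G) k := by
      show ∑ ω, (S.F k).μ ω * gexq Q (fun k => gG (V k) (G k)) k ω = ∑ ω, (S.F k).μ ω * gexq Q G k ω
      refine Finset.sum_congr rfl fun w _ => ?_
      unfold gexq
      simp only [gG_eq h3]
    rw [e1] at h2
    exact h2

/-- THE ROW [FDG] -/
theorem row_fdg (N : ℕ) : ROW_FDG N := by
  intro hST S V Q D G hD x
  obtain ⟨W, Dg, G', hW, hWV, hF⟩ := exists_fam hST hD (ff_of_fuf x) (a := H (up1 (Lab.ofZ V) (Q.dg 1)))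
    (fun m f hf A hA z hz => full_num x.kn x.fm x.fu f hf A hA z hz)
    (fun m f hf W hW => full_ent f hf W hW)
  obtain ⟨Dm, hDm⟩ : ∃ Dm : ℕ, ∀ (o : Equiv.Perm (Fin N)) (j : Fin N), Dg o j ≤ Dm := by
    refine ⟨∑ o : Equiv.Perm (Fin N), ∑ j : Fin N, Dg o j, fun o j => ?_⟩
    exact (Finset.single_le_sum (f := fun j => Dg o j) (fun _ _ => Nat.zero_le _) (Finset.mem_univ j)).trans
      (Finset.single_le_sum (f := fun o => ∑ j : Fin N, Dg o j) (fun _ _ => Nat.zero_le _) (Finset.mem_univ o))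
  refine ⟨fsp S N, fpj S N, cW ((fpj S N).vv Q) G' W, max Dm 1, go W ((fpj S N).vv Q) G', gw W ((fpj S N).vv Q) G',
    fun k => (cW_le k).trans (hW k), ?_, le_max_right _ _, ?_, ?_⟩
  · have h1 : PLe (fun k => fc (cW ((fpj S N).vv Q) G' W k)) (fun k => fc (W k)) := by
      show Tendsto (fun k => h (fc (cW ((fpj S N).vv Q) G' W k)) (fc (W k)) / ((fsp S N).F k).n) UF (𝓝 0)
      rw [Metric.tendsto_nhds]
      intro ε hε
      filter_upwards [cW_ent hF (show 0 < ε / 2 by linarith)] with k hk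
      have hn := ((fsp S N).F k).pos
      rw [Real.dist_eq, sub_zero, abs_of_nonneg (div_nonneg (h_nonneg _ _) hn.le), div_lt_iff₀ hn, h_fc]
      nlinarith
    exact h1.trans hWV
  · intro ε hε
    refine Sp.Typ.mono Typ_true (Eventually.of_forall fun k ω _ _ i j hij => ?_)
    have h1 := gw_mono (V := W) (Q := (fpj S N).vv Q) (G := G') k ω hij
    linarith
  · intro v q hvq h0
    exact ⟨_, rows_split hF (fun o j => (hDm o j).trans (le_max_left _ _)) hvq h0⟩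

end

end Pool.Agent.Helper76.FDG
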