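import Pool.Agent.Helper76.FDG.Grd
import Pool.Agent.Helper3.LF.Spd

/-! THE CODE OF THE EXPONENTS and of the best rows: `o(n)` bits; all diagonal exponents of all prefix forms are typically
the local exponents over the partition refined by the code. -/

set_option autoImplicit false

namespace Pool.Agent.Helper76.FDG

open Finset Filter Topology Matrix Pool.Agent.Helper69.RK Pool.Agent.Helper31.EC Pool.Agent.Helper31.EC.Sp
open Pool.Agent.Helper40.EL Pool.Agent.Helper3.LF Pool.Agent.Helper84.MT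
open Pool.Agent.Helper89.LX
open Pool.Agent.Helper14.MC
open Pool.Agent.Helper4.VZ (zex)
open Pool.Agent.Helper80.NSL (zex_bd)
open Pool.Agent.Helper76.DIM (pck ent_fin)
open Pool.Agent.Helper76.RL (Rw)
open Pool.Agent.Helper76.ADP (prow)
open Pool.Agent.Helper81.CP2 (pre)

noncomputable section

variable {S : Sp} {N : ℕ}

/-- THE FAMILY of prefix forms -/
structure Fam (V : ∀ k, Setoid (S.F k).Ω) (Q : S.VV N) (D : Equiv.Perm (Fin N) → Fin N → ℕ)
    (G : ∀ (o : Equiv.Perm (Fin N)) (j : Fin N) (k : ℕ), (S.F k).Ω →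
      Matrix (Mon ((j : ℕ) + 1) (D o j)) (Mon ((j : ℕ) + 1) (D o j)) ℝ) : Prop where
  D1 : ∀ (o : Equiv.Perm (Fin N)) (j : Fin N), 1 ≤ D o j
  pf : ∀ (o : Equiv.Perm (Fin N)) (j : Fin N), PF V (pck Q (pre o j)) (G o j)
  fl : ∀ (o : Equiv.Perm (Fin N)) (j : Fin N), Fl V (pck Q (pre o j)) (G o j)

/-- filled hulls over finer partitions -/
theorem Fl.mono {m D : ℕ} {V W : ∀ k, Setoid (S.F k).Ω} {Q : S.VV m}
    {G : ∀ k, (S.F k).Ω → Matrix (Mon m D) (Mon m D) ℝ} (h : Fl V Q G)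
    (hW : ∀ ε : ℝ, 0 < ε → ∀ᶠ k in UF, (S.F k).e (W k) (V k ⊓ (S.F k).Z) ≤ ε * (S.F k).n) : Fl W Q G := by
  intro ε hε
  filter_upwards [h (ε / 2) (by linarith), hW (ε / 2) (by linarith)] with k h1 h2
  have h3 := (S.F k).e_triangle (Setoid.ker (Q.cellv 1 k)) (W k) (V k ⊓ (S.F k).Z)
  have h4 : (S.F k).e (Setoid.ker (Q.cellv 1 k)) (W k ⊓ (V k ⊓ (S.F k).Z)) ≤
      (S.F k).e (Setoid.ker (Q.cellv 1 k)) (W k ⊓ (S.F k).Z) :=
    FSp.e_anti _ fun ω ω' _ _ h => ⟨h.1, h.2.2⟩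
  nlinarith

/-- the code is close to the exponent -/
lemma cod_real {n t e η : ℝ} (hn : 0 < n) (ht : 0 ≤ t) (ht1 : t ≤ 1 + η / 4) (hη : 1 / n < η / 4)
    (he : |(⌊n * min t 1⌋ : ℝ) / n - e| ≤ η / 4) : |t - max e 0| ≤ η := by
  have h8 := Int.floor_le (n * min t 1)
  have h9 := Int.lt_floor_add_one (n * min t 1)
  have h10 : (⌊n * min t 1⌋ : ℝ) / n ≤ min t 1 := by
    rw [div_le_iff₀ hn]
    linarith
  have h11 : min t 1 ≤ (⌊n * min t 1⌋ : ℝ) / n + η / 4 := by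
    have h12 : min t 1 ≤ (⌊n * min t 1⌋ : ℝ) / n + 1 / n := by
      rw [← add_div, le_div_iff₀ hn]
      linarith
    linarith
  have h12 := abs_le.mp he
  have h13 : t ≤ min t 1 + η / 4 := by
    rcases le_total t 1 with h14 | h14
    · rw [min_eq_left h14]
      have : 0 < 1 / n := by positivity
      linarith
    · rw [min_eq_right h14]
      linarith
  have h14 : min t 1 ≤ t := min_le_left _ _
  have h0 : 0 < 1 / n := by positivity
  rw [abs_le]
  constructor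
  · rcases le_total e 0 with h15 | h15
    · rw [max_eq_right h15]
      linarith
    · rw [max_eq_left h15]
      linarith [h12.1, h12.2]
  · have h15 := le_max_left e 0
    linarith [h12.1, h12.2]

lemma cod_err {n t : ℝ} (hn : 0 < n) : |(⌊n * t⌋ : ℝ) / n - t| ≤ 1 / n := by
  have h2 := Int.floor_le (n * t)
  have h3 := Int.lt_floor_add_one (n * t)
  have h4 : (⌊n * t⌋ : ℝ) / n - t = (⌊n * t⌋ - n * t) / n := by
    field_simp
  rw [h4, abs_div, abs_of_pos hn]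
  apply div_le_div_of_nonneg_right _ hn.le
  rw [abs_le]
  constructor <;> linarith

section

variable (Q : S.VV N) {D : Equiv.Perm (Fin N) → Fin N → ℕ}
    (G : ∀ (o : Equiv.Perm (Fin N)) (j : Fin N) (k : ℕ), (S.F k).Ω →
      Matrix (Mon ((j : ℕ) + 1) (D o j)) (Mon ((j : ℕ) + 1) (D o j)) ℝ)

/-- the places of the code -/
abbrev Pl (N : ℕ) : Type := Σ (_ : Equiv.Perm (Fin N)) (j : Fin N), Fin ((j : ℕ) + 1)

/-- the exponent of a place, cut at one -/
def xc (k : ℕ) (ω : (S.F k).Ω) (a : Pl N) : ℝ := min (zex (pck Q (pre a.1 a.2.1)) (G a.1 a.2.1) a.2.2 k ω) 1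

/-- THE CODE of the exponents -/
def cod (k : ℕ) (ω : (S.F k).Ω) (i : Fin (Fintype.card (Pl N))) : ℤ :=
  ⌊(S.F k).n * xc Q G k ω ((Fintype.equivFin (Pl N)).symm i)⌋

/-- the best rows -/
def brw (k : ℕ) (ω : (S.F k).Ω) : ∀ a : Equiv.Perm (Fin N) × Fin N, Rw ((a.2 : ℕ) + 1) (D a.1 a.2) :=
  fun a => prow Q a.1 (fun j => G a.1 j) a.2 k ω

/-- the partition with the codes -/
def cW (V : ∀ k, Setoid (S.F k).Ω) (k : ℕ) : Setoid (S.F k).Ω :=
  V k ⊓ (Setoid.ker (cod Q G k) ⊓ Setoid.ker (brw Q G k))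

variable {Q G} {V : ∀ k, Setoid (S.F k).Ω}

/-- the entropy of the code -/
lemma cod_ent (x : Fam V Q D G) {ε : ℝ} (hε : 0 < ε) : ∀ᶠ k in UF,
    (S.F k).e (Setoid.ker (cod Q G k)) (V k ⊓ (S.F k).Z) ≤ ε * (S.F k).n := by
  have h0 : ∀ᶠ k in UF, ∀ a : Pl N, ∀ ω, (S.F k).μ ω ≠ 0 → 0 ≤ xc Q G k ω a := by
    rw [eventually_all]
    intro a
    obtain ⟨C, hC, hA⟩ := (x.pf a.1 a.2.1).cp
    obtain ⟨Cz, hCz, hz⟩ := zex_bd (pck Q (pre a.1 a.2.1)) a.2.2 (G a.1 a.2.1) C hC hA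
    filter_upwards [hz] with k hk ω hω
    exact le_min (hk ω hω).1 zero_le_one
  have hc : (0 : ℝ) < Fintype.card (Pl N) + 1 := by positivity
  have hlog := ((Pool.Agent.Helper3.LF.Sub_n S).add (S.Sub_const zero_le_one)).eventually_le
    (show 0 < ε / (Fintype.card (Pl N) + 1) by positivity)
  filter_upwards [h0, hlog] with k h1 h2
  have hn := (S.F k).pos
  have h3 := (S.F k).e_int_le (cod Q G k) (V k ⊓ (S.F k).Z) (S.F k).n hn.le (by
    intro ω ω' hω hω' _ i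
    set a := (Fintype.equivFin (Pl N)).symm i with ha
    have hb : ∀ ω, (S.F k).μ ω ≠ 0 → (0 : ℝ) ≤ cod Q G k ω i ∧ (cod Q G k ω i : ℝ) ≤ (S.F k).n := by
      intro ω hω
      have h4 := h1 a ω hω
      have h5 : xc Q G k ω a ≤ 1 := min_le_right _ _
      have h6 : cod Q G k ω i = ⌊(S.F k).n * xc Q G k ω a⌋ := rfl
      rw [h6]
      constructor
      · exact_mod_cast Int.floor_nonneg.mpr (mul_nonneg hn.le h4)
      · exact (Int.floor_le _).trans (by nlinarith)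
    have h4 := hb ω hω
    have h5 := hb ω' hω'
    rw [abs_le]
    constructor <;> linarith)
  have h4 : Real.logb 2 ((S.F k).n + 1) ≤ ε / (Fintype.card (Pl N) + 1) * (S.F k).n := by
    rw [Real.logb_le_iff_le_rpow (by norm_num) (by linarith)]
    linarith
  have h5 : (Fintype.card (Pl N) : ℝ) * Real.logb 2 ((S.F k).n + 1) ≤
      Fintype.card (Pl N) * (ε / (Fintype.card (Pl N) + 1) * (S.F k).n) :=
    mul_le_mul_of_nonneg_left h4 (Nat.cast_nonneg _)
  refine h3.trans (h5.trans ?_)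
  rw [← mul_assoc]
  apply mul_le_mul_of_nonneg_right _ hn.le
  rw [mul_div_assoc', div_le_iff₀ hc]
  nlinarith

/-- THE PARTITION WITH THE CODES has small entropy -/
theorem cW_ent (x : Fam V Q D G) {ε : ℝ} (hε : 0 < ε) : ∀ᶠ k in UF,
    (S.F k).e (cW Q G V k) (V k ⊓ (S.F k).Z) ≤ ε * (S.F k).n := by
  filter_upwards [cod_ent x (show 0 < ε / 2 by linarith), ent_fin (S := S) (brw Q G) V (show 0 < ε / 2 by linarith)]
    with k h1 h2
  have h3 := (S.F k).e_sup_le (Setoid.ker (cod Q G k)) (Setoid.ker (brw Q G k)) (V k ⊓ (S.F k).Z)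
  have h4 := (S.F k).e_sup_le (V k) (Setoid.ker (cod Q G k) ⊓ Setoid.ker (brw Q G k)) (V k ⊓ (S.F k).Z)
  have h5 : (S.F k).e (V k) (V k ⊓ (S.F k).Z) = 0 := FSp.e_zero _ fun ω ω' _ _ h => h.1
  have h6 : (S.F k).e (cW Q G V k) (V k ⊓ (S.F k).Z) =
    (S.F k).e (V k ⊓ (Setoid.ker (cod Q G k) ⊓ Setoid.ker (brw Q G k))) (V k ⊓ (S.F k).Z) := rfl
  rw [h6]
  linarith

lemma cW_le (k : ℕ) : cW Q G V k ≤ V k := inf_le_left

lemma cod_eq (k : ℕ) (ω : (S.F k).Ω) (a : Pl N) :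
    cod Q G k ω (Fintype.equivFin (Pl N) a) = ⌊(S.F k).n * xc Q G k ω a⌋ := by
  unfold cod
  rw [Equiv.symm_apply_apply]

/-- the exponent of a place is a local exponent -/
lemma close1 (x : Fam V Q D G) (o : Equiv.Perm (Fin N)) (j : Fin N) (i : Fin ((j : ℕ) + 1)) {η : ℝ} (hη : 0 < η) :
    Typ (fun k ω => |zex (pck Q (pre o j)) (G o j) i k ω -
      max (eA (cW Q G V) Q (pim o j) (pre o j i) k ω) 0| ≤ η) := by
  have hpf := (x.pf o j).mono (W := cW Q G V) cW_le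
  have hfl := (x.fl o j).mono (W := cW Q G V) fun ε hε => cW_ent x hε
  have h1 := diag (x.D1 o j) hpf hfl i
    (fun k ω => (⌊(S.F k).n * xc Q G k ω ⟨o, j, i⟩⌋ : ℝ) / (S.F k).n) (by
      intro k ω ω' h
      have h2 : cod Q G k ω = cod Q G k ω' := h.1.2.1
      rw [← cod_eq, ← cod_eq, h2]) (fun k => 1 / (S.F k).n) (S.div_n_tendsto 1)
      (Eventually.of_forall fun k ω _ => cod_err (S.F k).pos) (show 0 < η / 4 by linarith)
  have h2 := hpf.zex_typ i (show 0 < η / 4 by linarith)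
  obtain ⟨C, hC, hA⟩ := (x.pf o j).cp
  obtain ⟨Cz, hCz, hz⟩ := zex_bd (pck Q (pre o j)) i (G o j) C hC hA
  refine Sp.Typ.mono (Typ.and h1 h2) ?_
  filter_upwards [hz, (S.div_n_tendsto 1).eventually (gt_mem_nhds (show (0 : ℝ) < η / 4 by linarith))]
    with k h3 h4 ω hω h5
  have h6 := h5.1
  rw [ez_eA] at h6
  exact cod_real (S.F k).pos (h3 ω hω).1 h5.2 h4 h6

/-- ALL DIAGONAL EXPONENTS ARE LOCAL EXPONENTS -/
theorem close (x : Fam V Q D G) {η : ℝ} (hη : 0 < η) : Typ (fun k ω => ∀ (o : Equiv.Perm (Fin N)) (j : Fin N)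
    (i : Fin ((j : ℕ) + 1)), |zex (pck Q (pre o j)) (G o j) i k ω -
      max (eA (cW Q G V) Q (pim o j) (pre o j i) k ω) 0| ≤ η) :=
  Pool.Agent.Helper63.MT.typ_all fun o => Pool.Agent.Helper63.MT.typ_all fun j =>
    Pool.Agent.Helper63.MT.typ_all fun i => close1 x o j i hη

end

end

end Pool.Agent.Helper76.FDG
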