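import Pool.Agent.Helper76.FDG.Pf
import Pool.Agent.Helper31.EC.Uns
import Pool.Agent.Helper31.EC.RobS

/-! THE DIAGONAL EXPONENTS ARE LOCAL ENTROPIES: for a form whose hull is filled over a partition, small at the point, which
dominates its derivatives, the exponent of `1 + J_zz` (cut at one) is typically `1` minus the local entropy of the digits
of the coordinate `z` given the other coordinates. -/

set_option autoImplicit false

namespace Pool.Agent.Helper76.FDG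

open Finset Filter Topology Matrix Pool.Agent.Helper69.RK Pool.Agent.Helper31.EC Pool.Agent.Helper31.EC.Sp
open Pool.Agent.Helper40.EL Pool.Agent.Helper3.LF Pool.Agent.Helper84.MT
open Pool.Agent.Helper89.LX
open Pool.Agent.Helper95.LF (PdM)
open Pool.Agent.Helper14.MC
open Pool.Agent.Helper4.VZ (zex pc sgl Dmv sgl_Jq)
open Pool.Agent.Helper80.NSL (zex_bd)

noncomputable section

variable {S : Sp} {m D : ℕ}

lemma pb_mul_rest (F : FSp) (B : F.Ω → Prop) (ω : F.Ω) : F.pb B * (F.rest B).μ ω = res F.μ B ω := by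
  by_cases h : F.pb B = 0
  · rw [h, zero_mul, F.res_zero_of_pb B h]
  · have h1 : (F.rest B).μ ω = (F.pb B)⁻¹ * res F.μ B ω := congrFun (F.restμ_eq B h) ω
    rw [h1, ← mul_assoc, mul_inv_cancel₀ h, one_mul]

/-- the weights of an event -/
def wr (B : ∀ k, (S.F k).Ω → Prop) (k : ℕ) : (S.F k).Ω → ℝ := ((S.F k).rest (B k)).μ

lemma wr_nn (B : ∀ k, (S.F k).Ω → Prop) (k : ℕ) (ω : (S.F k).Ω) : 0 ≤ wr B k ω := ((S.F k).rest (B k)).nn ω

lemma wr_sum (B : ∀ k, (S.F k).Ω → Prop) (k : ℕ) : ∑ ω, wr B k ω = 1 := ((S.F k).rest (B k)).ms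

lemma wr_supp (B : ∀ k, (S.F k).Ω → Prop) (k : ℕ) (ω : (S.F k).Ω) (h : wr B k ω ≠ 0) :
    (S.F k).μ ω ≠ 0 ∧ (S.pr B k ≠ 0 → B k ω) := (S.F k).rest_supp (B k) ω h

/-- the average over an event -/
def avr (B : ∀ k, (S.F k).Ω → Prop) (f : ∀ k, (S.F k).Ω → ℝ) (k : ℕ) : ℝ := ∑ ω, wr B k ω * f k ω

/-- the entropy on an event -/
def er (B : ∀ k, (S.F k).Ω → Prop) (k : ℕ) (X s : Setoid (S.F k).Ω) : ℝ := ((S.F k).rest (B k)).e X s

/-- splitting of an average -/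
lemma av_split (B : ∀ k, (S.F k).Ω → Prop) (f : ∀ k, (S.F k).Ω → ℝ) (k : ℕ) :
    av S f k = S.pr B k * avr B f k + (1 - S.pr B k) * avr (fun k ω => ¬ B k ω) f k := by
  have h1 : ∀ (A : ∀ k, (S.F k).Ω → Prop), S.pr A k * avr A f k = ∑ ω, res (S.F k).μ (A k) ω * f k ω := by
    intro A
    unfold avr
    rw [Finset.mul_sum]
    refine Finset.sum_congr rfl fun ω _ => ?_
    have h2 : S.pr A k * wr A k ω = res (S.F k).μ (A k) ω := pb_mul_rest (S.F k) (A k) ω
    rw [← mul_assoc, h2]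
  have h2 := h1 B
  have h3 := h1 (fun k ω => ¬ B k ω)
  rw [pr_compl] at h3
  rw [h2, h3, ← Finset.sum_add_distrib]
  refine Finset.sum_congr rfl fun ω _ => ?_
  by_cases h : B k ω
  · rw [res_pos _ _ _ h, res_neg _ (fun ω => ¬ B k ω) _ (not_not.mpr h)]
    ring
  · rw [res_neg _ _ _ h, res_pos _ (fun ω => ¬ B k ω) _ h]
    ring

lemma avr_mono {B : ∀ k, (S.F k).Ω → Prop} {f g : ∀ k, (S.F k).Ω → ℝ} {k : ℕ}
    (h : ∀ ω, wr B k ω ≠ 0 → f k ω ≤ g k ω) : avr B f k ≤ avr B g k := by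
  refine Finset.sum_le_sum fun ω _ => ?_
  by_cases h0 : wr B k ω = 0
  · rw [h0, zero_mul, zero_mul]
  · exact mul_le_mul_of_nonneg_left (h ω h0) (wr_nn B k ω)

lemma avr_add_const (B : ∀ k, (S.F k).Ω → Prop) (f : ∀ k, (S.F k).Ω → ℝ) (c : ℝ) (k : ℕ) :
    avr B (fun k ω => f k ω + c) k = avr B f k + c := by
  unfold avr
  simp only [mul_add]
  rw [Finset.sum_add_distrib, ← Finset.sum_mul, wr_sum, one_mul]

lemma avr_neg (B : ∀ k, (S.F k).Ω → Prop) (f : ∀ k, (S.F k).Ω → ℝ) (k : ℕ) :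
    avr B (fun k ω => - f k ω) k = - avr B f k := by
  unfold avr
  rw [← Finset.sum_neg_distrib]
  exact Finset.sum_congr rfl fun ω _ => mul_neg _ _

lemma av_add_const (f : ∀ k, (S.F k).Ω → ℝ) (c : ℝ) (k : ℕ) : av S (fun k ω => f k ω + c) k = av S f k + c := by
  have h3 : ∑ ω, (S.F k).μ ω = 1 := (S.F k).ms
  unfold av
  simp only [mul_add]
  rw [Finset.sum_add_distrib, ← Finset.sum_mul, h3, one_mul]

variable {V : ∀ k, Setoid (S.F k).Ω} {Q : S.VV m} {G : ∀ k, (S.F k).Ω → Matrix (Mon m D) (Mon m D) ℝ}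

lemma av_rest_gexq (B : ∀ k, (S.F k).Ω → Prop) (k : ℕ) :
    av (S.rest B) (gexq (S := S.rest B) (Q.rest B) G) k = avr B (gexq Q G) k := rfl

lemma av_rest_zex (B : ∀ k, (S.F k).Ω → Prop) (z : Fin m) (k : ℕ) :
    av (S.rest B) (zex (S := S.rest B) (Q.rest B) G z) k = avr B (zex Q G z) k := rfl

/-- counting on events -/
lemma PF.cntB (hD : 1 ≤ D) (x : PF V Q G) (B : ∀ k, (S.F k).Ω → Prop) (hB : 0 < ul (S.pr B)) {ε : ℝ} (hε : 0 < ε) :
    ∀ᶠ k in UF, er B k (Setoid.ker (Q.cellv 1 k)) (V k ⊓ (S.F k).Z) ≤ (m - avr B (gexq Q G) k + ε) * (S.F k).n := by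
  filter_upwards [(x.rest B hB).cnt hD hε] with k hk
  rw [av_rest_gexq] at hk
  exact hk

lemma PF.cntzB (hD : 1 ≤ D) (x : PF V Q G) (z : Fin m) (B : ∀ k, (S.F k).Ω → Prop) (hB : 0 < ul (S.pr B)) {ε : ℝ}
    (hε : 0 < ε) : ∀ᶠ k in UF, er B k (Setoid.ker (pc Q z k)) (V k ⊓ (S.F k).Z) + (S.F k).n ≤
      (m - avr B (gexq Q G) k + avr B (zex Q G z) k + ε) * (S.F k).n := by
  filter_upwards [(x.rest B hB).cntz hD z hε] with k hk
  rw [av_rest_gexq, av_rest_zex] at hk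
  exact hk

lemma PF.oneB (hD : 1 ≤ D) (x : PF V Q G) (z : Fin m) (B : ∀ k, (S.F k).Ω → Prop) (hB : 0 < ul (S.pr B)) {ε : ℝ}
    (hε : 0 < ε) : ∀ᶠ k in UF, er B k (Setoid.ker (Q.cellv 1 k)) (V k ⊓ (S.F k).Z) ≤
      er B k (Setoid.ker (pc Q z k)) (V k ⊓ (S.F k).Z) +
      (avr B (fun k ω => max (1 - zex Q G z k ω) 0) k + ε) * (S.F k).n := by
  filter_upwards [(x.rest B hB).one hD z hε] with k hk
  exact hk

/-- the hull is filled -/
def Fl (V : ∀ k, Setoid (S.F k).Ω) (Q : S.VV m) (G : ∀ k, (S.F k).Ω → Matrix (Mon m D) (Mon m D) ℝ) : Prop :=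
  ∀ ε : ℝ, 0 < ε → ∀ᶠ k in UF, (m - ε) * (S.F k).n ≤
    (S.F k).e (Setoid.ker (Q.cellv 1 k)) (V k ⊓ (S.F k).Z) + (S.F k).n * av S (gexq Q G) k

lemma PF.gUB (x : PF V Q G) : UB (av S (gexq Q G)) := by
  obtain ⟨C, hC, hA⟩ := x.cp
  exact gexq_UB Q G C hC hA

lemma PF.gUBr (x : PF V Q G) (B : ∀ k, (S.F k).Ω → Prop) : UB (avr B (gexq Q G)) := by
  obtain ⟨C, hC, hA⟩ := x.cp
  apply UB_of_nonneg_le (C := (C + 3) * m)
  · filter_upwards [gexq_nonneg Q G C hA] with k hk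
    refine Finset.sum_nonneg fun ω _ => ?_
    by_cases h0 : wr B k ω = 0
    · rw [h0, zero_mul]
    · exact mul_nonneg (wr_nn B k ω) (hk ω (wr_supp B k ω h0).1)
  · filter_upwards [gexq_bd Q G C hC hA] with k hk
    have h1 : avr B (gexq Q G) k ≤ avr B (fun _ _ => (C + 3) * m) k :=
      avr_mono fun ω hω => hk ω (wr_supp B k ω hω).1
    refine h1.trans (le_of_eq ?_)
    unfold avr
    rw [← Finset.sum_mul, wr_sum, one_mul]

/-- the rate on an event -/
def rr (B : ∀ k, (S.F k).Ω → Prop) (V : ∀ k, Setoid (S.F k).Ω) (Q : S.VV m) (k : ℕ) : ℝ :=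
  er B k (Setoid.ker (Q.cellv 1 k)) (V k ⊓ (S.F k).Z) / (S.F k).n

lemma rr_UB (B : ∀ k, (S.F k).Ω → Prop) (V : ∀ k, Setoid (S.F k).Ω) (Q : S.VV m) : UB (rr B V Q) :=
  UB_rt (S := S.rest B) (restI B (Q.bdd 1).toInf) V

/-- THE HULL IS FILLED ON ALL EVENTS -/
theorem Fl.rest (hD : 1 ≤ D) (x : PF V Q G) (h : Fl V Q G) (B : ∀ k, (S.F k).Ω → Prop) (hB : 0 < ul (S.pr B))
    {ε : ℝ} (hε : 0 < ε) : ∀ᶠ k in UF, (m - ε) * (S.F k).n ≤
    er B k (Setoid.ker (Q.cellv 1 k)) (V k ⊓ (S.F k).Z) + (S.F k).n * avr B (gexq Q G) k := by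
  set B' : ∀ k, (S.F k).Ω → Prop := fun k ω => ¬ B k ω with hB'
  have hp1 : ul (S.pr B) ≤ 1 := ul_le_const (UB_pr B) (Eventually.of_forall fun k => pr_le_one B k)
  have hU : UB (S.rt (fun k => Setoid.ker (Q.cellv 1 k)) V) := UB_rt (Q.bdd 1).toInf V
  have h1 : ul (S.rt (fun k => Setoid.ker (Q.cellv 1 k)) V) = ul (S.pr B) * ul (rr B V Q) +
      (1 - ul (S.pr B)) * ul (rr B' V Q) := ul_rt_split B (Q.bdd 1).toInf V
  have hgB := x.gUBr B
  have hgB' := x.gUBr B'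
  have h2 : ul (av S (gexq Q G)) = ul (S.pr B) * ul (avr B (gexq Q G)) +
      (1 - ul (S.pr B)) * ul (avr B' (gexq Q G)) := by
    have t1 := ((ul_tendsto (UB_pr B)).mul (ul_tendsto hgB)).add
      (((ul_tendsto (UB_pr B)).const_sub 1).mul (ul_tendsto hgB'))
    apply ul_eq
    exact t1.congr fun k => (av_split B (gexq Q G) k).symm
  have h0 : (m : ℝ) ≤ ul (S.rt (fun k => Setoid.ker (Q.cellv 1 k)) V) + ul (av S (gexq Q G)) := by
    apply le_of_forall_pos_le_add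
    intro e he
    rw [← ul_add hU x.gUB]
    have h1 : (m : ℝ) - e ≤ ul (fun k => S.rt (fun k => Setoid.ker (Q.cellv 1 k)) V k + av S (gexq Q G) k) := by
      apply const_le_ul (hU.add x.gUB)
      filter_upwards [h e he] with k hk
      have hn := (S.F k).pos
      have h1 : S.rt (fun k => Setoid.ker (Q.cellv 1 k)) V k =
        (S.F k).e (Setoid.ker (Q.cellv 1 k)) (V k ⊓ (S.F k).Z) / (S.F k).n := rfl
      rw [h1, div_add' _ _ _ hn.ne', le_div_iff₀ hn]
      nlinarith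
    linarith
  have h3 : (1 - ul (S.pr B)) * (ul (rr B' V Q) + ul (avr B' (gexq Q G))) ≤ (1 - ul (S.pr B)) * m := by
    rcases eq_or_lt_of_le hp1 with h4 | h4
    · rw [h4, sub_self, zero_mul, zero_mul]
    · have h5 : 0 < ul (S.pr B') := by
        rw [hB', ul_pr_compl]
        linarith
      apply mul_le_mul_of_nonneg_left _ (by linarith)
      apply le_of_forall_pos_le_add
      intro e he
      rw [← ul_add (rr_UB B' V Q) hgB']
      apply ul_le_const ((rr_UB B' V Q).add hgB')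
      filter_upwards [x.cntB hD B' h5 he] with k hk
      have hn := (S.F k).pos
      unfold rr
      rw [div_add' _ _ _ hn.ne', div_le_iff₀ hn]
      nlinarith
  have h4 : (m : ℝ) ≤ ul (rr B V Q) + ul (avr B (gexq Q G)) := by
    have h5 : ul (S.pr B) * m ≤ ul (S.pr B) * (ul (rr B V Q) + ul (avr B (gexq Q G))) := by
      nlinarith
    exact le_of_mul_le_mul_left h5 hB
  have h5 := (ul_tendsto (rr_UB B V Q)).add (ul_tendsto hgB)
  filter_upwards [h5.eventually (lt_mem_nhds (show (m : ℝ) - ε < ul (rr B V Q) + ul (avr B (gexq Q G)) by linarith))]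
    with k hk
  have hn := (S.F k).pos
  unfold rr at hk
  rw [div_add' _ _ _ hn.ne', lt_div_iff₀ hn] at hk
  nlinarith

/-- the local exponent in the direction `z` -/
def ez (V : ∀ k, Setoid (S.F k).Ω) (Q : S.VV m) (z : Fin m) (k : ℕ) (ω : (S.F k).Ω) : ℝ :=
  1 - (lc (S.F k) (V k ⊓ (S.F k).Z) (Setoid.ker (Q.cellv 1 k)) ω -
    lc (S.F k) (V k ⊓ (S.F k).Z) (Setoid.ker (pc Q z k)) ω) / (S.F k).n

lemma pc_coarse (Q : S.VV m) (z : Fin m) (k : ℕ) : Setoid.ker (Q.cellv 1 k) ≤ Setoid.ker (pc Q z k) := by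
  intro ω ω' h
  have h1 : Q.cellv 1 k ω = Q.cellv 1 k ω' := h
  show pc Q z k ω = pc Q z k ω'
  funext i
  unfold pc
  by_cases hi : i = z
  · rw [if_pos hi, if_pos hi]
  · rw [if_neg hi, if_neg hi]
    exact congrFun h1 i

lemma ez_le_one (V : ∀ k, Setoid (S.F k).Ω) (Q : S.VV m) (z : Fin m) (k : ℕ) (ω : (S.F k).Ω) : ez V Q z k ω ≤ 1 := by
  have h1 := lc_mono (F := S.F k) (s := V k ⊓ (S.F k).Z) (pc_coarse Q z k) ω
  have h2 := div_nonneg (sub_nonneg.mpr h1) (S.F k).pos.le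
  unfold ez
  linarith

lemma ez_inv (V : ∀ k, Setoid (S.F k).Ω) (Q : S.VV m) (z : Fin m) (k : ℕ) {ω ω' : (S.F k).Ω}
    (h : (V k ⊓ (S.F k).Z) ω ω') : ez V Q z k ω = ez V Q z k ω' := by
  unfold ez
  rw [lc_inv (F := S.F k) (s := V k ⊓ (S.F k).Z) h, lc_inv (F := S.F k) (s := V k ⊓ (S.F k).Z) h]

/-- the average of the local exponent over an event which is known to the partition -/
lemma av_ez (V : ∀ k, Setoid (S.F k).Ω) (Q : S.VV m) (z : Fin m) (B : ∀ k, (S.F k).Ω → Prop)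
    (hB : ∀ k ω ω', (V k ⊓ (S.F k).Z) ω ω' → B k ω → B k ω') (k : ℕ) : (S.F k).n * avr B (ez V Q z) k =
      (S.F k).n - er B k (Setoid.ker (Q.cellv 1 k)) (V k ⊓ (S.F k).Z) +
      er B k (Setoid.ker (pc Q z k)) (V k ⊓ (S.F k).Z) := by
  have hn := (S.F k).pos
  have h1 : er B k (Setoid.ker (Q.cellv 1 k)) (V k ⊓ (S.F k).Z) =
      ∑ ω, wr B k ω * lc (S.F k) (V k ⊓ (S.F k).Z) (Setoid.ker (Q.cellv 1 k)) ω :=
    e_lc (F := S.F k) (V k ⊓ (S.F k).Z) (Setoid.ker (Q.cellv 1 k)) (B := B k) (hB k)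
  have h2 : er B k (Setoid.ker (pc Q z k)) (V k ⊓ (S.F k).Z) =
      ∑ ω, wr B k ω * lc (S.F k) (V k ⊓ (S.F k).Z) (Setoid.ker (pc Q z k)) ω :=
    e_lc (F := S.F k) (V k ⊓ (S.F k).Z) (Setoid.ker (pc Q z k)) (B := B k) (hB k)
  have h5 : (S.F k).n = ∑ ω, wr B k ω * (S.F k).n := by
    rw [← Finset.sum_mul, wr_sum, one_mul]
  have h6 : ∀ ω, (S.F k).n * (wr B k ω * ez V Q z k ω) = wr B k ω * (S.F k).n -
      wr B k ω * lc (S.F k) (V k ⊓ (S.F k).Z) (Setoid.ker (Q.cellv 1 k)) ω +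
      wr B k ω * lc (S.F k) (V k ⊓ (S.F k).Z) (Setoid.ker (pc Q z k)) ω := by
    intro ω
    unfold ez
    field_simp
    ring
  unfold avr
  rw [h1, h2, Finset.mul_sum, Finset.sum_congr rfl fun ω _ => h6 ω, Finset.sum_add_distrib, Finset.sum_sub_distrib,
    ← h5]

/-- the exponent is at most one typically -/
lemma PF.zex_typ (x : PF V Q G) (z : Fin m) {η : ℝ} (hη : 0 < η) : Typ (fun k ω => zex Q G z k ω ≤ 1 + η) := by
  obtain ⟨C, hC, hA⟩ := x.cp
  have hnn := nn_one m D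
  have hCm := Cm_one m D
  have hs : S.Sub (fun _ => 1 + (m : ℝ) * nn m D * Cm m D ^ 2) := S.Sub_const (by positivity)
  refine Sp.Typ.mono (x.sm η hη) ?_
  filter_upwards [hA, hs.eventually_le hη] with k a b ω hω hφ
  have hn := (S.F k).pos
  have hAω := a ω hω
  have hδ := S.dl_pos 1 k
  have hJ : 0 ≤ Jq (S.dl 1 k) (G k ω) (Q.v k ω) z z := by
    have := Jq_nonneg (S.dl 1 k) hAω.psd.2 (Q.v k ω) (sgl z)
    rwa [sgl_Jq] at this
  have h1 := Jq_gam (S.dl 1 k) (G k ω) hAω.pdM (Q.v k ω) (sgl z)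
  have h2 := gam_le (G k ω) hAω.pdM (S.dl 1 k) hδ (Q.v k ω)
  have h6 : (S.dl 1 k ^ 2)⁻¹ = 2 ^ (2 * (S.F k).n) := Pool.Agent.Helper59.EV.dl_sq_inv S k
  have h7 : gam (S.dl 1 k) (G k ω) (Q.v k ω) ≤
      2 ^ (2 * (S.F k).n) * ((m : ℝ) * nn m D * Cm m D ^ 2 * 2 ^ (η * (S.F k).n)) := by
    rw [← h6, inv_mul_eq_div, le_div_iff₀ (by positivity), mul_comm]
    refine h2.trans ?_
    exact mul_le_mul_of_nonneg_left hφ (by positivity)
  have hdot : sgl z ⬝ᵥ sgl z = 1 := by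
    unfold sgl
    rw [single_one_dotProduct, Pi.single_eq_same]
  rw [hdot, mul_one, sgl_Jq] at h1
  have h8 : 1 + Jq (S.dl 1 k) (G k ω) (Q.v k ω) z z ≤ 2 ^ ((2 + 2 * η) * (S.F k).n) := by
    have h10 : (1 : ℝ) ≤ 2 ^ (2 * (S.F k).n) := Real.one_le_rpow (by norm_num) (by linarith)
    have h11 : (1 : ℝ) ≤ 2 ^ (η * (S.F k).n) := Real.one_le_rpow (by norm_num) (by positivity)
    have h12 := h1.trans h7
    have e1 : (2 : ℝ) ^ ((2 + 2 * η) * (S.F k).n) = 2 ^ (2 * (S.F k).n) * (2 ^ (η * (S.F k).n) * 2 ^ (η * (S.F k).n)) := by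
      rw [← Real.rpow_add (by norm_num), ← Real.rpow_add (by norm_num)]
      congr 1
      ring
    rw [e1]
    calc 1 + Jq (S.dl 1 k) (G k ω) (Q.v k ω) z z
        ≤ 2 ^ (2 * (S.F k).n) * 2 ^ (η * (S.F k).n) + 2 ^ (2 * (S.F k).n) *
          ((m : ℝ) * nn m D * Cm m D ^ 2 * 2 ^ (η * (S.F k).n)) := add_le_add (by nlinarith) h12
      _ = 2 ^ (2 * (S.F k).n) * ((1 + (m : ℝ) * nn m D * Cm m D ^ 2) * 2 ^ (η * (S.F k).n)) := by ring
      _ ≤ _ := by
        apply mul_le_mul_of_nonneg_left _ (by positivity)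
        exact mul_le_mul_of_nonneg_right (by linarith) (by positivity)
  unfold zex
  rw [div_le_iff₀ (by positivity)]
  rw [← Real.logb_le_iff_le_rpow (by norm_num) (by linarith)] at h8
  nlinarith

/-- the average of the exponent is the average of the exponent cut at one -/
lemma PF.av_min (x : PF V Q G) (z : Fin m) {ε : ℝ} (hε : 0 < ε) : ∀ᶠ k in UF,
    av S (zex Q G z) k ≤ av S (fun k ω => min (zex Q G z k ω) 1) k + ε := by
  classical
  obtain ⟨C, hC, hA⟩ := x.cp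
  obtain ⟨Cz, hCz, hz⟩ := zex_bd Q z G C hC hA
  have hT := x.zex_typ z (show 0 < ε / 2 by linarith)
  have h3 : Tendsto (fun k => Cz * (S.F k).pb (fun ω => ¬ (zex Q G z k ω ≤ 1 + ε / 2))) UF (𝓝 (Cz * 0)) :=
    Tendsto.const_mul Cz hT
  rw [mul_zero] at h3
  filter_upwards [hz, h3.eventually (gt_mem_nhds (show (0 : ℝ) < ε / 2 by linarith))] with k hk h4
  have h5 : ∀ ω, (S.F k).μ ω * zex Q G z k ω ≤ (S.F k).μ ω * (min (zex Q G z k ω) 1 + ε / 2) +
      Cz * res (S.F k).μ (fun ω => ¬ (zex Q G z k ω ≤ 1 + ε / 2)) ω := by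
    intro ω
    by_cases h0 : (S.F k).μ ω = 0
    · rw [h0, zero_mul, zero_mul, res_zero _ h0, mul_zero, add_zero]
    · have h6 := (S.F k).nn ω
      obtain ⟨h7, h8⟩ := hk ω h0
      by_cases h9 : zex Q G z k ω ≤ 1 + ε / 2
      · rw [res_neg _ (fun ω => ¬ (zex Q G z k ω ≤ 1 + ε / 2)) _ (not_not.mpr h9), mul_zero, add_zero]
        apply mul_le_mul_of_nonneg_left _ h6
        rcases le_total (zex Q G z k ω) 1 with h10 | h10
        · rw [min_eq_left h10]
          linarith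
        · rw [min_eq_right h10]
          linarith
      · rw [res_pos _ (fun ω => ¬ (zex Q G z k ω ≤ 1 + ε / 2)) _ h9]
        have h10 : 0 ≤ (S.F k).μ ω * (min (zex Q G z k ω) 1 + ε / 2) :=
          mul_nonneg h6 (add_nonneg (le_min h7 zero_le_one) (by linarith))
        nlinarith
  have h6 := Finset.sum_le_sum fun ω (_ : ω ∈ Finset.univ) => h5 ω
  rw [Finset.sum_add_distrib, ← Finset.mul_sum] at h6
  have h7 := av_add_const (S := S) (fun k ω => min (zex Q G z k ω) 1) (ε / 2) k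
  have h8 : ∑ ω, (S.F k).μ ω * (min (zex Q G z k ω) 1 + ε / 2) =
    av S (fun k ω => min (zex Q G z k ω) 1 + ε / 2) k := rfl
  have h9 : ∑ ω, res (S.F k).μ (fun ω => ¬ (zex Q G z k ω ≤ 1 + ε / 2)) ω =
    (S.F k).pb (fun ω => ¬ (zex Q G z k ω ≤ 1 + ε / 2)) := rfl
  rw [h8, h7, h9] at h6
  have h10 : av S (zex Q G z) k = ∑ ω, (S.F k).μ ω * zex Q G z k ω := rfl
  rw [h10]
  linarith

/-- the average of the exponent is the average of the exponent cut at one, on events -/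
lemma PF.av_minB (x : PF V Q G) (z : Fin m) (B : ∀ k, (S.F k).Ω → Prop) (hB : 0 < ul (S.pr B)) {ε : ℝ} (hε : 0 < ε) :
    ∀ᶠ k in UF, avr B (zex Q G z) k ≤ avr B (fun k ω => min (zex Q G z k ω) 1) k + ε := by
  filter_upwards [(x.rest B hB).av_min z hε] with k hk
  exact hk

/-- on every event which is known to the partition the averages agree -/
theorem ez_event (hD : 1 ≤ D) (x : PF V Q G) (h : Fl V Q G) (z : Fin m) (B : ∀ k, (S.F k).Ω → Prop)
    (hB : ∀ k ω ω', (V k ⊓ (S.F k).Z) ω ω' → B k ω → B k ω') (hB0 : 0 < ul (S.pr B)) {ε : ℝ} (hε : 0 < ε) :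
    ∀ᶠ k in UF, |avr B (fun k ω => min (zex Q G z k ω) 1) k - avr B (ez V Q z) k| ≤ ε := by
  have he : 0 < ε / 3 := by linarith
  filter_upwards [x.cntzB hD z B hB0 he, x.oneB hD z B hB0 he, h.rest hD x B hB0 he, x.av_minB z B hB0 he]
    with k h1 h2 h3 h4
  have hn := (S.F k).pos
  have h5 := av_ez V Q z B hB k
  have e7 : avr B (fun k ω => max (1 - zex Q G z k ω) 0) k = 1 - avr B (fun k ω => min (zex Q G z k ω) 1) k := by
    have h6 := avr_add_const B (fun k ω => - min (zex Q G z k ω) 1) 1 k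
    rw [avr_neg B (fun k ω => min (zex Q G z k ω) 1) k] at h6
    have h8 : avr B (fun k ω => max (1 - zex Q G z k ω) 0) k = avr B (fun k ω => - min (zex Q G z k ω) 1 + 1) k := by
      refine Finset.sum_congr rfl fun ω _ => ?_
      congr 1
      show max (1 - zex Q G z k ω) 0 = - min (zex Q G z k ω) 1 + 1
      rcases le_total (zex Q G z k ω) 1 with h10 | h10
      · rw [min_eq_left h10, max_eq_left (by linarith)]
        ring
      · rw [min_eq_right h10, max_eq_right (by linarith)]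
        ring
    rw [h8, h6]
    ring
  rw [e7] at h2
  rw [abs_le]
  constructor
  · have h6 : (S.F k).n * avr B (ez V Q z) k ≤
        (S.F k).n * (avr B (fun k ω => min (zex Q G z k ω) 1) k + ε) := by
      rw [h5]
      nlinarith
    have := le_of_mul_le_mul_left h6 hn
    linarith
  · have h6 : (S.F k).n * (avr B (fun k ω => min (zex Q G z k ω) 1) k - ε) ≤
        (S.F k).n * avr B (ez V Q z) k := by
      rw [h5]
      nlinarith
    have := le_of_mul_le_mul_left h6 hn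
    linarith

/-- DIAGONAL EXPONENTS: a value `u` known to the partition which is close to the exponent cut at one is typically close to
the local exponent -/
theorem diag (hD : 1 ≤ D) (x : PF V Q G) (h : Fl V Q G) (z : Fin m) (u : ∀ k, (S.F k).Ω → ℝ)
    (hu : ∀ k ω ω', (V k ⊓ (S.F k).Z) ω ω' → u k ω = u k ω') (e : ℕ → ℝ) (he : Tendsto e UF (𝓝 0))
    (hue : ∀ᶠ k in UF, ∀ ω, (S.F k).μ ω ≠ 0 → |u k ω - min (zex Q G z k ω) 1| ≤ e k) {η : ℝ} (hη : 0 < η) :
    Typ (fun k ω => |u k ω - ez V Q z k ω| ≤ η) := by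
  have hav : ∀ (B : ∀ k, (S.F k).Ω → Prop), ∀ᶠ k in UF, |avr B u k -
      avr B (fun k ω => min (zex Q G z k ω) 1) k| ≤ e k := by
    intro B
    filter_upwards [hue] with k hk
    have h1 : avr B u k ≤ avr B (fun k ω => min (zex Q G z k ω) 1 + e k) k := by
      apply avr_mono
      intro ω hω
      have := (abs_le.mp (hk ω (wr_supp B k ω hω).1)).2
      linarith
    have h2 : avr B (fun k ω => min (zex Q G z k ω) 1) k ≤ avr B (fun k ω => u k ω + e k) k := by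
      apply avr_mono
      intro ω hω
      have := (abs_le.mp (hk ω (wr_supp B k ω hω).1)).1
      linarith
    have h3 : avr B (fun k ω => min (zex Q G z k ω) 1 + e k) k =
        avr B (fun k ω => min (zex Q G z k ω) 1) k + e k :=
      avr_add_const B (fun k ω => min (zex Q G z k ω) 1) (e k) k
    have h4 : avr B (fun k ω => u k ω + e k) k = avr B u k + e k :=
      avr_add_const B u (e k) k
    rw [abs_le]
    constructor <;> linarith
  have hsup : ∀ (B : ∀ k, (S.F k).Ω → Prop), 0 < ul (S.pr B) → ∀ᶠ k in UF, ∀ ω, wr B k ω ≠ 0 → B k ω := by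
    intro B hB
    filter_upwards [(ul_tendsto (UB_pr B)).eventually (lt_mem_nhds hB)] with k hk ω hω
    exact (wr_supp B k ω hω).2 hk.ne'
  have hone : ∀ (B : ∀ k, (S.F k).Ω → Prop), (∀ k ω ω', (V k ⊓ (S.F k).Z) ω ω' → B k ω → B k ω') →
      ((∀ k ω, B k ω → ez V Q z k ω + η ≤ u k ω) ∨ ∀ k ω, B k ω → u k ω + η ≤ ez V Q z k ω) →
      ¬ 0 < ul (S.pr B) := by
    intro B hB hor h0
    have he' := he.eventually (gt_mem_nhds (show (0 : ℝ) < η / 4 by linarith))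
    obtain ⟨k, h1, h2, h3, h4⟩ := (((ez_event hD x h z B hB h0 (show 0 < η / 4 by linarith)).and (hav B)).and
      ((hsup B h0).and he')).exists.imp fun k hk => (⟨hk.1.1, hk.1.2, hk.2.1, hk.2.2⟩ : _ ∧ _ ∧ _ ∧ _)
    have h5 := abs_le.mp h1
    have h6 := abs_le.mp h2
    rcases hor with hor | hor
    · have h7 : avr B (fun k ω => ez V Q z k ω + η) k ≤ avr B u k :=
        avr_mono fun ω hω => hor k ω (h3 ω hω)
      rw [avr_add_const B (ez V Q z) η k] at h7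
      linarith [h5.2, h6.2]
    · have h7 : avr B (fun k ω => u k ω + η) k ≤ avr B (ez V Q z) k :=
        avr_mono fun ω hω => hor k ω (h3 ω hω)
      rw [avr_add_const B u η k] at h7
      linarith [h5.1, h6.1]
  have hT1 : Typ (fun k ω => ¬ (ez V Q z k ω + η ≤ u k ω)) := by
    rcases typ_or (fun k (ω : (S.F k).Ω) => ¬ (ez V Q z k ω + η ≤ u k ω)) with h1 | h1
    · exact h1
    · exfalso
      have e1 : (fun k (ω : (S.F k).Ω) => ¬ ¬ (ez V Q z k ω + η ≤ u k ω)) =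
          fun k (ω : (S.F k).Ω) => ez V Q z k ω + η ≤ u k ω := by
        funext k ω
        exact propext not_not
      rw [e1] at h1
      refine hone (fun k ω => ez V Q z k ω + η ≤ u k ω) (fun k ω ω' h2 h3 => ?_) (Or.inl fun k ω h => h) h1
      rw [← ez_inv V Q z k h2, ← hu k ω ω' h2]
      exact h3
  have hT2 : Typ (fun k ω => ¬ (u k ω + η ≤ ez V Q z k ω)) := by
    rcases typ_or (fun k (ω : (S.F k).Ω) => ¬ (u k ω + η ≤ ez V Q z k ω)) with h1 | h1
    · exact h1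
    · exfalso
      have e1 : (fun k (ω : (S.F k).Ω) => ¬ ¬ (u k ω + η ≤ ez V Q z k ω)) =
          fun k (ω : (S.F k).Ω) => u k ω + η ≤ ez V Q z k ω := by
        funext k ω
        exact propext not_not
      rw [e1] at h1
      refine hone (fun k ω => u k ω + η ≤ ez V Q z k ω) (fun k ω ω' h2 h3 => ?_) (Or.inr fun k ω h => h) h1
      rw [← ez_inv V Q z k h2, ← hu k ω ω' h2]
      exact h3
  refine Sp.Typ.mono (Typ.and hT1 hT2) (Eventually.of_forall fun k ω _ h1 => ?_)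
  rw [abs_le]
  constructor
  · have := lt_of_not_ge h1.2
    linarith
  · have := lt_of_not_ge h1.1
    linarith

end

end Pool.Agent.Helper76.FDG
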