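import Pool.Agent.Helper76.FDG.Fda
import Pool.Agent.Helper76.THK.Thl

/-! THE FAMILY of full forms of all prefixes in all orders over one partition, from one full form. -/

set_option autoImplicit false

namespace Pool.Agent.Helper76.FDG

open Finset Filter Topology Matrix Pool.Agent.Helper69.RK Pool.Agent.Helper31.EC Pool.Agent.Helper31.EC.Sp
open Pool.Agent.Helper40.EL Pool.Agent.Helper3.LF Pool.Agent.Helper84.MT
open Pool.Agent.Helper89.LX
open Pool.Agent.Helper14.MC (gexq)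
open Pool.Agent.Helper66.NJ (Kn1 gG gG_kn gG_eq zFD opt_zFD exists_carrier)
open Pool.Agent.Helper89.RAK (slf_K)
open Pool.Agent.Helper33.LIT Pool.Agent.Helper49.KL
open Pool.Agent.Helper30.NSL (pck_cell row_low)
open Pool.Agent.Helper36.AM (STu)
open Pool.Agent.Helper87.NSL (cndR)
open Pool.Agent.Helper76.DIM (pck)
open Pool.Agent.Helper76.THK (ThkF TLeaf thick gT nT e00 fsp fpj)
open Pool.Agent.Helper81.CP2 (pre)

noncomputable section

variable {S : Sp} {N D : ℕ}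

/-- the window `0` of a leaf is known to the label of the leaf -/
theorem win0 {E : ℕ → ℕ} {Q : S.VV N} (f : Leaf S Q E) : PLe (f.win 0) (fun k => fc (f.La k)) := by
  obtain ⟨K, hK, hb⟩ := f.Y.bd
  have h1 : PLe (fun k => fc (Setoid.ker (f.Y.cellv 0 k))) (fun k => fc (f.La k)) := by
    apply PLe_cell f.Y 0 _ (fun k => 2 * K k) ((S.Sub_const (by norm_num)).mul hK)
    filter_upwards [hb] with k hk ω ω' a b _ _ i
    have h0 : S.dl 0 k = 1 := by
      unfold Sp.dl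
      rw [zero_mul, neg_zero, Real.rpow_zero]
    rw [h0, mul_one]
    have h1 := abs_le.mp (hk ω a i)
    have h2 := abs_le.mp (hk ω' b i)
    rw [abs_le]
    constructor <;> linarith [h1.1, h1.2, h2.1, h2.2]
  have e1 : f.win 0 = fun k => fc (f.La k) ⊔ fc (Setoid.ker (f.Y.cellv 0 k)) := funext fun k => fc_inf _ _
  rw [e1]
  exact PLe.sup_le (PLe.refl _) h1

/-- THE FAMILY from one full form -/
theorem exists_fam (hST : ∀ m, m < N → STu m) {V : ∀ k, Setoid (S.F k).Ω} {Q : S.VV N}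
    {G : ∀ k, (S.F k).Ω → Matrix (Mon N D) (Mon N D) ℝ} (hD : 1 ≤ D) (x : Ff V Q G) {a : ℝ}
    (hnum : ∀ (m : ℕ) (f : Fin m → Fin N), Function.Bijective f → ∀ (A : Option Unit → Part (fsp S N)),
      (Lab.ofZ ((fpj S N).pb V)).DMf A → ∀ (z : ∀ k, FD ((fsp S N).F k) (Mon m D)),
      (gaq (pck ((fpj S N).vv Q) f) D).OptfK (LC.kz fun k => fc (⊥ : Setoid ((fsp S N).F k).Ω)) A z →
        vol (pck ((fpj S N).vv Q) f) D z ≤ a)
    (hent : ∀ (m : ℕ) (f : Fin m → Fin N), Function.Bijective f → ∀ (W : ∀ k, Setoid ((fsp S N).F k).Ω),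
      PLe (fun k => fc (W k)) (fun k => fc ((fpj S N).pb V k)) →
        a ≤ H (up1 (Lab.ofZ W) ((pck ((fpj S N).vv Q) f).dg 1))) :
    ∃ (W : ∀ k, Setoid ((fsp S N).F k).Ω) (Dg : Equiv.Perm (Fin N) → Fin N → ℕ)
      (G' : ∀ (o : Equiv.Perm (Fin N)) (j : Fin N) (k : ℕ), ((fsp S N).F k).Ω →
        Matrix (Mon ((j : ℕ) + 1) (Dg o j)) (Mon ((j : ℕ) + 1) (Dg o j)) ℝ),
      (∀ k, W k ≤ (fpj S N).pb V k) ∧ PLe (fun k => fc (W k)) (fun k => fc ((fpj S N).pb V k)) ∧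
        Fam W ((fpj S N).vv Q) Dg G' := by
  classical
  rcases Nat.eq_zero_or_pos N with hN0 | hN0
  · subst hN0
    exact ⟨(fpj S 0).pb V, fun _ _ => 1, fun _ _ _ _ => 1, fun k => le_rfl, PLe.refl _,
      ⟨fun _ _ => le_rfl, fun _ j => j.elim0, fun _ j => j.elim0⟩⟩
  have : Nonempty (Fin N) := ⟨⟨0, hN0⟩⟩
  obtain ⟨E, La, P, Nn, c, β, A, f, y⟩ := thick (zero_add N) hD x.thk
  obtain ⟨s, hs⟩ : ∃ s : MSys (fsp S N) N (lin (gT N D)) Unit, s = ⟨(fpj S N).vv Q, fun _ => f⟩ := ⟨_, rfl⟩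
  have hsQ : s.Q = (fpj S N).vv Q := by rw [hs]
  obtain ⟨R, hRe⟩ : ∃ R : ∀ k, Setoid ((fsp S N).F k).Ω, R = fun _ => ⊥ := ⟨_, rfl⟩
  have hR0 : ∀ k, R k = ⊥ := fun k => by rw [hRe]
  have hR : ∀ k, R k ≤ Setoid.ker (s.Q.cellv 1 k) := fun k => by rw [hR0]; exact bot_le
  have hRb : ∀ (W : ∀ k, Setoid ((fsp S N).F k).Ω), ∀ᶠ k in UF, R k ⊓ ((fsp S N).F k).Z ≤ W k := fun W =>
    Eventually.of_forall fun k => by rw [hR0, bot_inf_eq]; exact bot_le
  -- conditions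
  have hcn : ∀ (W : ∀ k, Setoid ((fsp S N).F k).Ω), PLe (fun k => fc (W k)) (f.win 0) →
      (Lab.ofZ W).DMf (cndR s R 0) := by
    intro W hW
    rw [Lab.ofZ_DMf]
    intro i
    rcases i with _ | i
    · have e1 : cndR s R 0 none = fun k => fc (R k) := rfl
      rw [e1]
      exact PLe_of_le fun k => fc_mono (by rw [hR0]; exact bot_le)
    · have e1 : cndR s R 0 (some i) = f.win 0 := by rw [hs]; rfl
      rw [e1]
      exact hW
  have hVw : PLe (fun k => fc ((fpj S N).pb V k)) (f.win 0) := PLe_of_le fun k =>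
    fc_mono (inf_le_left.trans (by rw [y.eLa]; exact y.le k))
  have hLV : PLe (f.win 0) (fun k => fc ((fpj S N).pb V k)) := by
    refine (win0 f).trans ?_
    rw [y.eLa]
    exact y.ent
  have hwc : ∀ (W : ∀ k, Setoid ((fsp S N).F k).Ω), (Lab.ofZ W).DMf (cndR s R 0) → PLe (fun k => fc (W k)) (f.win 0) := by
    intro W hW
    have h1 := (Lab.ofZ_DMf W).mp hW (some ())
    have e1 : cndR s R 0 (some ()) = f.win 0 := by rw [hs]; rfl
    rw [e1] at h1
    exact h1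
  -- degrees
  have hrow : ∀ (o : Equiv.Perm (Fin N)) (j : Fin N), ∃ D' : ℕ, 1 ≤ D' ∧
      ∀ z : ∀ k, FD ((fsp S N).F k) (Mon ((j : ℕ) + 1) D'),
      (gaq (pck s.Q (pre o j)) D').OptfK (LC.kz fun k => fc (R k)) (cndR s R 0) z →
        ∀ W : ∀ k, Setoid ((fsp S N).F k).Ω, (Lab.ofZ W).DMf (cndR s R 0) →
          vol (pck s.Q (pre o j)) D' z ≤ H (up1 (Lab.ofZ W) ((pck s.Q (pre o j)).dg 1)) := by
    intro o j
    by_cases hj : (j : ℕ) + 1 = N
    · have hb : Function.Bijective (pre o j) := by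
        refine ⟨fun a b hab => ?_, fun p => ?_⟩
        · have h3 := o.injective hab
          exact Fin.ext (congrArg (fun i : Fin N => (i : ℕ)) h3)
        · obtain ⟨i, hi'⟩ := o.surjective p
          exact ⟨⟨i, by omega⟩, hi'⟩
      refine ⟨D, hD, fun z hz W hW => ?_⟩
      rw [hsQ] at hz ⊢
      rw [hRe] at hz
      exact (hnum _ _ hb _ (by
        rw [hRe] at hcn
        exact hcn _ hVw) z hz).trans (hent _ _ hb W ((hwc W hW).trans hLV))
    · obtain ⟨D', hD', hx⟩ := row_low s hR (hST _ (lt_of_le_of_ne j.2 hj)) (pre o j)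
      exact ⟨D', hD', fun z hz W hW => hx z hz (Lab.ofZ W) hW (kz_ofZ (hRb W))⟩
  choose Dg hDg hvol using hrow
  obtain ⟨W0, w1, w2, w3⟩ := exists_carrier (cndR s R 0) R
    (fun a : Equiv.Perm (Fin N) × Fin N => Mon ((a.2 : ℕ) + 1) (Dg a.1 a.2))
    (fun a => gaq (pck s.Q (pre a.1 a.2)) (Dg a.1 a.2))
  choose G0 hG hGo using w3
  obtain ⟨W, hW⟩ : ∃ W : ∀ k, Setoid ((fsp S N).F k).Ω, W = fun k => W0 k ⊓ (fpj S N).pb V k := ⟨_, rfl⟩
  have u2 : ∀ k, W k ≤ W0 k := fun k => by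
    rw [hW]
    exact inf_le_left
  have u3 : ∀ k, W k ≤ (fpj S N).pb V k := fun k => by
    rw [hW]
    exact inf_le_right
  have e1 : (fun k => (fc (W k) : FL ((fsp S N).F k))) = fun k => fc (W0 k) ⊔ fc ((fpj S N).pb V k) := by
    funext k
    rw [hW]
    exact fc_inf _ _
  have u5 : PLe (fun k => fc (W k)) (f.win 0) := by
    rw [e1]
    exact PLe.sup_le (hwc W0 w2) hVw
  have u4 : (Lab.ofZ W).DMf (cndR s R 0) := hcn W u5
  have hxo : ∀ a : Equiv.Perm (Fin N) × Fin N, (gaq (pck s.Q (pre a.1 a.2)) (Dg a.1 a.2)).OptfK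
      (LC.kz fun k => fc (R k)) (cndR s R 0) (fun k => zFD (W k) (G0 a k)) := fun a =>
    opt_zFD _ (hG a) (hGo a) (Eventually.of_forall u2) (hRb W) u4
  have hpf : ∀ (o : Equiv.Perm (Fin N)) (j : Fin N), PF W (pck s.Q (pre o j)) (fun k => gG (W k) (G0 (o, j) k)) := by
    intro o j
    have h1 := hxo (o, j)
    exact pf_of_adf h1.1.1 fun z => (slf_K (gaq (pck s.Q (pre o j)) (Dg o j)) h1).dmz h1.1.1
      (fun k => (hR k).trans (pck_cell s.Q _ 1 k)) z
  refine ⟨W, Dg, fun o j k => gG (W k) (G0 (o, j) k), u3, u5.trans hLV, ⟨hDg, fun o j => ?_, fun o j => ?_⟩⟩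
  · have h1 := hpf o j
    rw [hsQ] at h1
    exact h1
  · have h1 := hpf o j
    obtain ⟨C, hC, hcp⟩ := h1.cp
    have h2 := hvol o j _ (hxo (o, j)) W u4
    have h3 := fl_of_vol (gexq_UB' hC hcp) h2
    rw [hsQ] at h3
    exact h3

end

end Pool.Agent.Helper76.FDG
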