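import Pool.Agent.Helper76.FDG.Tri
import Pool.Agent.Helper30.NSL.Row
import Pool.Agent.Helper87.NSL.LemA

/-! ONE FULL FORM, conversions: literal K-forms as forms over a partition; one full form as a filled hull. -/

set_option autoImplicit false

namespace Pool.Agent.Helper76.FDG

open Finset Filter Topology Matrix Pool.Agent.Helper69.RK Pool.Agent.Helper31.EC Pool.Agent.Helper31.EC.Sp
open Pool.Agent.Helper40.EL Pool.Agent.Helper3.LF Pool.Agent.Helper84.MT
open Pool.Agent.Helper89.LX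
open Pool.Agent.Helper95.LF (PdM)
open Pool.Agent.Helper14.MC (gexq gexq_UB gexq_nonneg gexq_bd gexq_up)
open Pool.Agent.Helper4.VZ (zex sgl zx_ee)
open Pool.Agent.Helper80.NSL (zl_zx zl_zex)
open Pool.Agent.Helper66.NJ (Kn1 gG gG_kn gG_eq zFD)
open Pool.Agent.Helper89.RAK (Dmz)
open Pool.Agent.Helper30.NSL (H_pnt phi_typ)
open Pool.Agent.Helper76.THK (ThkF e00)
open Pool.Agent.Helper87.NSL (FmG)

noncomputable section

variable {S : Sp} {m D : ℕ} {κ : Type}

/-- entropies over a literal label -/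
theorem H_lit (Q : S.VV m) (W : ∀ k, Setoid (S.F k).Ω) :
    H (up1 (Lab.ofZ W) (Q.dg 1)) = ul (S.rt (fun k => Setoid.ker (Q.cellv 1 k)) W) := by
  rw [H_pnt]
  refine ul_congr (Eventually.of_forall fun k => ?_)
  refine congrArg (fun t => t / (S.F k).n) ?_
  exact ((FLab.triv (S.F k)).p.h_map (pcd Q k) (fc (W k))).trans (h_fc _ _)

theorem vol_lit (Q : S.VV m) (W : ∀ k, Setoid (S.F k).Ω) (G : ∀ k, (S.F k).Ω → Matrix (Mon m D) (Mon m D) ℝ) :
    vol Q D (fun k => zFD (W k) (G k)) = m - ul (av S (gexq Q (fun k => gG (W k) (G k)))) := rfl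

/-- a full form of a literal label -/
theorem fl_of_vol {Q : S.VV m} {W : ∀ k, Setoid (S.F k).Ω} {G : ∀ k, (S.F k).Ω → Matrix (Mon m D) (Mon m D) ℝ}
    (hg : UB (av S (gexq Q (fun k => gG (W k) (G k)))))
    (h : vol Q D (fun k => zFD (W k) (G k)) ≤ H (up1 (Lab.ofZ W) (Q.dg 1))) :
    Fl W Q (fun k => gG (W k) (G k)) := by
  rw [vol_lit, H_lit] at h
  have hU : UB (S.rt (fun k => Setoid.ker (Q.cellv 1 k)) W) := UB_rt (Q.bdd 1).toInf W
  intro ε hε
  have h3 := (ul_tendsto hU).add (ul_tendsto hg)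
  filter_upwards [h3.eventually (lt_mem_nhds (show (m : ℝ) - ε < ul (S.rt (fun k => Setoid.ker (Q.cellv 1 k)) W) +
    ul (av S (gexq Q (fun k => gG (W k) (G k)))) by linarith))] with k hk
  have hn := (S.F k).pos
  have h1 : S.rt (fun k => Setoid.ker (Q.cellv 1 k)) W k =
    (S.F k).e (Setoid.ker (Q.cellv 1 k)) (W k ⊓ (S.F k).Z) / (S.F k).n := rfl
  rw [h1, div_add' _ _ _ hn.ne', lt_div_iff₀ hn] at hk
  nlinarith

/-- a literal admissible form which dominates its derivatives -/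
theorem pf_of_adf {A : κ → Part S} {Q : S.VV m} {W : ∀ k, Setoid (S.F k).Ω}
    {G : ∀ k, (S.F k).Ω → Matrix (Mon m D) (Mon m D) ℝ} (hx : (gaq Q D).Adf A (fun k => zFD (W k) (G k)))
    (hz : ∀ z, Dmz Q z (fun k => zFD (W k) (G k))) : PF W Q (fun k => gG (W k) (G k)) where
  cp := by
    refine ⟨(gaq Q D).C + 1, by linarith [(gaq Q D).C0], ?_⟩
    filter_upwards [hx 1 one_pos] with k hk ω hω
    exact (hk.2.1 ω hω).1
  ms := Eventually.of_forall fun k ω ω' a b c d => gG_kn (W k) (G k) ω ω' a b c d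
  sm := fun e he => phi_typ hx e he
  dm := fun z e he => by
    have h1 := (hz z).typ hx e he
    refine Sp.Typ.mono h1 (Eventually.of_forall fun k ω _ h => ?_)
    have e1 : Pool.Agent.Helper4.VZ.ee Q (fun k => zFD (W k) (G k)) (fun _ _ => sgl z) k ω =
        zex Q (fun k => gG (W k) (G k)) z k ω := zx_ee Q (fun k => zFD (W k) (G k)) z k ω
    rw [e1] at h
    exact h

/-- the average exponent of a capped form is bounded -/
theorem gexq_UB' {Q : S.VV m} {G : ∀ k, (S.F k).Ω → Matrix (Mon m D) (Mon m D) ℝ} {C : ℝ} (hC : 0 ≤ C)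
    (h : ∀ᶠ k in UF, ∀ ω, (S.F k).μ ω ≠ 0 → Cpd (2 ^ (C * (S.F k).n)) (G k ω)) : UB (av S (gexq Q G)) :=
  gexq_UB Q G C hC h

/-- the exponent is at most the dimension typically -/
theorem gexq_typ {Q : S.VV m} {G : ∀ k, (S.F k).Ω → Matrix (Mon m D) (Mon m D) ℝ} {C : ℝ}
    (hA : ∀ᶠ k in UF, ∀ ω, (S.F k).μ ω ≠ 0 → Cpd (2 ^ (C * (S.F k).n)) (G k ω))
    (hs : ∀ e : ℝ, 0 < e → Typ (fun k ω => phi (S.dl 1 k) (G k ω) (Q.v k ω) ≤ 2 ^ (e * (S.F k).n)))
    {η : ℝ} (hη : 0 < η) : Typ (fun k ω => gexq Q G k ω ≤ m + η) := by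
  have hm : (0 : ℝ) < m + 1 := by positivity
  have hcU := cU_one m D
  have he : 0 < η / (m + 1) / 2 := by positivity
  refine Sp.Typ.mono (hs _ he) ?_
  filter_upwards [gexq_up Q G C hA, (S.Sub_const (show (0 : ℝ) ≤ cU m D by linarith)).eventually_le he, hA]
    with k h1 h2 h0 ω hω hφ
  have hn := (S.F k).pos
  have hB : (0 : ℝ) < 2 ^ (η / (m + 1) * (S.F k).n) := by positivity
  have h3 := h1 ω hω _ hB (by
    have e1 : (2 : ℝ) ^ (η / (m + 1) * (S.F k).n) = 2 ^ (η / (m + 1) / 2 * (S.F k).n) *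
        2 ^ (η / (m + 1) / 2 * (S.F k).n) := by
      rw [← Real.rpow_add (by norm_num)]
      congr 1
      ring
    rw [e1]
    exact mul_le_mul (by linarith) hφ (phi_nonneg _ (fun v => (h0 ω hω).psd.2 v) _) (by positivity))
  refine h3.trans ?_
  rw [Real.logb_rpow (by norm_num) (by norm_num), mul_div_assoc, div_self hn.ne', mul_one]
  have : (m : ℝ) * (η / (m + 1)) ≤ η := by
    rw [mul_div_assoc', div_le_iff₀ hm]
    nlinarith
  linarith

/-- ONE FULL FORM over a partition -/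
structure Ff (V : ∀ k, Setoid (S.F k).Ω) (Q : S.VV m) (G : ∀ k, (S.F k).Ω → Matrix (Mon m D) (Mon m D) ℝ) : Prop where
  cp : ∃ C : ℝ, 0 ≤ C ∧ ∀ᶠ k in UF, ∀ ω, (S.F k).μ ω ≠ 0 → Cpd (2 ^ (C * (S.F k).n)) (G k ω)
  ms : ∀ᶠ k in UF, ∀ ω ω', (S.F k).μ ω ≠ 0 → (S.F k).μ ω' ≠ 0 → V k ω ω' → (S.F k).Z ω ω' → G k ω = G k ω'
  sm : ∀ e : ℝ, 0 < e → Typ (fun k ω => phi (S.dl 1 k) (G k ω) (Q.v k ω) ≤ 2 ^ (e * (S.F k).n))
  fl : Fl V Q G

/-- the exponent cut at the dimension -/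
def gcl (Q : S.VV m) (G : ∀ k, (S.F k).Ω → Matrix (Mon m D) (Mon m D) ℝ) (k : ℕ) (ω : (S.F k).Ω) : ℝ :=
  min (max (gexq Q G k ω) 0) m

lemma gexq_eq {Q : S.VV m} {G : ∀ k, (S.F k).Ω → Matrix (Mon m D) (Mon m D) ℝ} {k : ℕ} {ω : (S.F k).Ω}
    (h : PdM (G k ω)) : GQ (S.dl 1 k) (G k ω) (Q.v k ω) = 2 ^ (2 * gexq Q G k ω * (S.F k).n) := by
  have hn := (S.F k).pos
  have h1 := one_le_GQ (S.dl 1 k) h.1 h.nonneg (Q.v k ω)
  have h2 : 2 * gexq Q G k ω * (S.F k).n = Real.logb 2 (GQ (S.dl 1 k) (G k ω) (Q.v k ω)) := by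
    unfold gexq
    field_simp
  rw [h2, Real.rpow_logb (by norm_num) (by norm_num) (by linarith)]

/-- one full form in the shape of the thick leaf -/
theorem Ff.thk {V : ∀ k, Setoid (S.F k).Ω} {Q : S.VV m} {G : ∀ k, (S.F k).Ω → Matrix (Mon m D) (Mon m D) ℝ}
    (x : Ff V Q G) : ThkF V Q 0 m G (gcl Q G) := by
  classical
  obtain ⟨C, hC, hA⟩ := x.cp
  refine ⟨?_, ?_, x.sm, ?_, ?_, ?_⟩
  · filter_upwards [hA] with k hk ω hω using (hk ω hω).pdM
  · filter_upwards [x.ms] with k hk ω ω' a b z h using hk ω ω' a b h z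
  · exact Eventually.of_forall fun k ω _ => ⟨le_min (le_max_right _ _) (Nat.cast_nonneg _), min_le_right _ _⟩
  · intro η hη
    refine Sp.Typ.mono Typ_true ?_
    filter_upwards [hA, gexq_nonneg Q G C hA] with k h1 h2 ω hω _
    have hn := (S.F k).pos
    refine ⟨e00 (zero_add m), ?_⟩
    have e1 : (fun j : Fin m => e00 (zero_add m) (Sum.inr j)) = fun j => j := by
      funext j
      apply Fin.ext
      show 0 + (j : ℕ) = j
      exact zero_add _
    rw [e1]
    have e2 : ((1 + Jq (S.dl 1 k) (G k ω) (Q.v k ω)).submatrix (fun j => j) (fun j => j)).det =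
      GQ (S.dl 1 k) (G k ω) (Q.v k ω) := rfl
    rw [e2, gexq_eq (h1 ω hω).pdM]
    apply Real.rpow_le_rpow_of_exponent_le (by norm_num)
    apply mul_le_mul_of_nonneg_right _ hn.le
    have h3 := h2 ω hω
    have h4 : gcl Q G k ω ≤ max (gexq Q G k ω) 0 := min_le_left _ _
    rw [max_eq_left h3] at h4
    linarith
  · intro ε hε
    have hT := gexq_typ (Q := Q) hA x.sm (show 0 < ε / 4 by linarith)
    have h3 : Tendsto (fun k => ((C + 3) * m) * (S.F k).pb (fun ω => ¬ (gexq Q G k ω ≤ m + ε / 4))) UF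
        (𝓝 (((C + 3) * m) * 0)) := Tendsto.const_mul _ hT
    rw [mul_zero] at h3
    filter_upwards [x.fl (ε / 2) (by linarith), gexq_nonneg Q G C hA, gexq_bd Q G C hC hA,
      h3.eventually (gt_mem_nhds (show (0 : ℝ) < ε / 4 by linarith))] with k h1 h2 h4 h5
    have hn := (S.F k).pos
    have h6 : ∀ ω, (S.F k).μ ω * gexq Q G k ω ≤ (S.F k).μ ω * (gcl Q G k ω + ε / 4) +
        ((C + 3) * m) * res (S.F k).μ (fun ω => ¬ (gexq Q G k ω ≤ m + ε / 4)) ω := by
      intro ω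
      by_cases h0 : (S.F k).μ ω = 0
      · rw [h0, zero_mul, zero_mul, res_zero _ h0, mul_zero, add_zero]
      · have h7 := (S.F k).nn ω
        have h8 := h2 ω h0
        have h9 := h4 ω h0
        by_cases h10 : gexq Q G k ω ≤ m + ε / 4
        · rw [res_neg _ (fun ω => ¬ (gexq Q G k ω ≤ m + ε / 4)) _ (not_not.mpr h10), mul_zero, add_zero]
          apply mul_le_mul_of_nonneg_left _ h7
          unfold gcl
          rw [max_eq_left h8]
          rcases le_total (gexq Q G k ω) m with h11 | h11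
          · rw [min_eq_left h11]
            linarith
          · rw [min_eq_right h11]
            exact h10
        · rw [res_pos _ (fun ω => ¬ (gexq Q G k ω ≤ m + ε / 4)) _ h10]
          have h11 : 0 ≤ gcl Q G k ω := le_min (le_max_right _ _) (Nat.cast_nonneg _)
          have h12 : 0 ≤ (S.F k).μ ω * (gcl Q G k ω + ε / 4) := mul_nonneg h7 (by linarith)
          nlinarith
    have h7 := Finset.sum_le_sum fun ω (_ : ω ∈ Finset.univ) => h6 ω
    rw [Finset.sum_add_distrib, ← Finset.mul_sum] at h7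
    have h8 := av_add_const (S := S) (gcl Q G) (ε / 4) k
    have h9 : ∑ ω, (S.F k).μ ω * (gcl Q G k ω + ε / 4) = av S (fun k ω => gcl Q G k ω + ε / 4) k := rfl
    have h10 : ∑ ω, res (S.F k).μ (fun ω => ¬ (gexq Q G k ω ≤ m + ε / 4)) ω =
      (S.F k).pb (fun ω => ¬ (gexq Q G k ω ≤ m + ε / 4)) := rfl
    rw [h9, h8, h10] at h7
    have h11 : ∑ ω, (S.F k).μ ω * gexq Q G k ω = av S (gexq Q G) k := rfl
    have h12 : ∑ ω, (S.F k).μ ω * gcl Q G k ω = av S (gcl Q G) k := rfl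
    rw [h11] at h7
    rw [h12]
    have h13 : av S (gexq Q G) k ≤ av S (gcl Q G) k + ε / 2 := by linarith
    have h14 := mul_le_mul_of_nonneg_left h13 hn.le
    nlinarith

end

end Pool.Agent.Helper76.FDG
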