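import Pool.Agent.Helper76.FDG.Fd

/-! The numbers of one full form in the extension by fresh digits: the pull back of the form, in any order of the
coordinates. -/

set_option autoImplicit false

namespace Pool.Agent.Helper76.FDG

open Finset Filter Topology Matrix Pool.Agent.Helper69.RK Pool.Agent.Helper31.EC Pool.Agent.Helper31.EC.Sp
open Pool.Agent.Helper40.EL Pool.Agent.Helper3.LF Pool.Agent.Helper84.MT
open Pool.Agent.Helper89.LX
open Pool.Agent.Helper14.MC (gexq)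
open Pool.Agent.Helper66.NJ (Kn1 gG gG_kn gG_eq zFD opt_zFD)
open Pool.Agent.Helper89.RAK (volK_le)
open Pool.Agent.Helper33.LIT Pool.Agent.Helper49.KL
open Pool.Agent.Helper30.NSL (pck_dg_ge cFD cFD_adf vol_cFD)
open Pool.Agent.Helper87.NSL (FmG)
open Pool.Agent.Helper76.DIM (pck)
open Pool.Agent.Helper76.THK (fsp fpj)

noncomputable section

variable {S : Sp} {N D : ℕ}

/-- entropies over the pull back of a label, up to labels known to it -/
theorem full_ent {V : ∀ k, Setoid (S.F k).Ω} {Q : S.VV N} {m : ℕ} (f : Fin m → Fin N) (hf : Function.Bijective f)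
    (W : ∀ k, Setoid ((fsp S N).F k).Ω) (hW : PLe (fun k => fc (W k)) (fun k => fc ((fpj S N).pb V k))) :
    H (up1 (Lab.ofZ V) (Q.dg 1)) ≤ H (up1 (Lab.ofZ W) ((pck ((fpj S N).vv Q) f).dg 1)) := by
  refine le_trans ?_ (H_mono (up1_mono _ (pck_dg_ge ((fpj S N).vv Q) hf.2 1)))
  rw [H_lit, H_lit]
  have h1 : UB (S.rt (fun k => Setoid.ker (Q.cellv 1 k)) V) := UB_rt (Q.bdd 1).toInf V
  have h2 : UB ((fsp S N).rt (fun k => Setoid.ker (((fpj S N).vv Q).cellv 1 k)) W) :=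
    UB_rt (((fpj S N).vv Q).bdd 1).toInf W
  have h3 : Tendsto (fun k => h (fc (W k)) (fc ((fpj S N).pb V k)) / ((fsp S N).F k).n) UF (𝓝 0) := hW
  have h4 := le_of_tendsto_of_tendsto (ul_tendsto h1) ((ul_tendsto h2).add h3) (by
    refine Eventually.of_forall fun k => ?_
    have hn := ((fsp S N).F k).pos
    have e1 := (fpj S N).rt_pb (fun k => Setoid.ker (Q.cellv 1 k)) V k
    show S.rt (fun k => Setoid.ker (Q.cellv 1 k)) V k ≤
      (fsp S N).rt (fun k => Setoid.ker (((fpj S N).vv Q).cellv 1 k)) W k +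
        h (fc (W k)) (fc ((fpj S N).pb V k)) / ((fsp S N).F k).n
    rw [← e1, h_fc]
    have e2 : (fsp S N).rt ((fpj S N).pb fun k => Setoid.ker (Q.cellv 1 k)) ((fpj S N).pb V) k =
      ((fsp S N).F k).e (Setoid.ker (((fpj S N).vv Q).cellv 1 k)) ((fpj S N).pb V k ⊓ ((fsp S N).F k).Z) /
        ((fsp S N).F k).n := rfl
    have e3 : (fsp S N).rt (fun k => Setoid.ker (((fpj S N).vv Q).cellv 1 k)) W k =
      ((fsp S N).F k).e (Setoid.ker (((fpj S N).vv Q).cellv 1 k)) (W k ⊓ ((fsp S N).F k).Z) / ((fsp S N).F k).n := rfl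
    rw [e2, e3, ← add_div]
    apply div_le_div_of_nonneg_right _ hn.le
    have h5 := ((fsp S N).F k).e_triangle (Setoid.ker (((fpj S N).vv Q).cellv 1 k)) (W k)
      ((fpj S N).pb V k ⊓ ((fsp S N).F k).Z)
    have h6 : ((fsp S N).F k).e (Setoid.ker (((fpj S N).vv Q).cellv 1 k)) (W k ⊓ ((fpj S N).pb V k ⊓ ((fsp S N).F k).Z)) ≤
        ((fsp S N).F k).e (Setoid.ker (((fpj S N).vv Q).cellv 1 k)) (W k ⊓ ((fsp S N).F k).Z) :=
      FSp.e_anti _ fun ω ω' _ _ h => ⟨h.1, h.2.2⟩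
    linarith)
  rw [add_zero] at h4
  exact h4

/-- the pull back of a form -/
theorem adf_pb {V : ∀ k, Setoid (S.F k).Ω} {Q : S.VV N} {G : ∀ k, (S.F k).Ω → Matrix (Mon N D) (Mon N D) ℝ}
    (kn : ∀ᶠ k in UF, Kn1 (V k) (G k)) (fm : FmG Q (fun k => zFD (V k) (G k))) {κ : Type} [Finite κ]
    {A : κ → Part (fsp S N)} (hA : (Lab.ofZ ((fpj S N).pb V)).DMf A) :
    (gaq ((fpj S N).vv Q) D).Adf A (fun k => zFD ((fpj S N).pb V k) (fun w => G k ((fpj S N).π k w))) := by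
  intro η hη
  have hL : ∀ᶠ k in UF, ∀ i, ((Lab.ofZ ((fpj S N).pb V)) k).leak (A i k) ≤ η * ((fsp S N).F k).n := by
    rw [eventually_all]
    intro i
    filter_upwards [(hA i).eventually (gt_mem_nhds hη)] with k hk
    exact ((div_lt_iff₀ ((fsp S N).F k).pos).mp hk).le
  filter_upwards [hL, fm.1, fm.2 η hη, kn] with k h1 h2 h3 h4
  have h5 : Kn1 ((fpj S N).pb V k) (fun w => G k ((fpj S N).π k w)) := fun w w' a b c d =>
    h4 _ _ ((fpj S N).supp k w a) ((fpj S N).supp k w' b) c (((fpj S N).hZ k _ _ a b).mp d)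
  have e1 : gG (V k) (G k) = G k := gG_eq h4
  have e2 : gG ((fpj S N).pb V k) (fun w => G k ((fpj S N).π k w)) = fun w => G k ((fpj S N).π k w) := gG_eq h5
  have c1 : ∀ ω, (S.F k).μ ω ≠ 0 → Cpd ((gaq Q D).cp k) (gG (V k) (G k) ω) := h2
  have c2 : (S.F k).pb (fun ω => ¬ (gaq Q D).φ k ω (gG (V k) (G k) ω) ≤ 2 ^ (η * (S.F k).n)) ≤ η := h3
  rw [e1] at c1 c2
  have d1 : ∀ w, ((fsp S N).F k).μ w ≠ 0 → Cpd ((gaq ((fpj S N).vv Q) D).cp k)
      (gG ((fpj S N).pb V k) (fun w => G k ((fpj S N).π k w)) w) := fun w hw => by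
    rw [e2]
    exact c1 _ ((fpj S N).supp k w hw)
  have d2 : ((fsp S N).F k).pb (fun w => ¬ (gaq ((fpj S N).vv Q) D).φ k w
      (gG ((fpj S N).pb V k) (fun w => G k ((fpj S N).π k w)) w) ≤ 2 ^ (η * ((fsp S N).F k).n)) ≤ η := by
    rw [e2]
    refine le_trans (le_of_eq ?_) c2
    exact pb_push (T := (fsp S N).F k) (F := S.F k) ⟨(fpj S N).π k, (fpj S N).law k, (fpj S N).hZ k⟩
      (fun ω => ¬ (gaq Q D).φ k ω (G k ω) ≤ 2 ^ (η * (S.F k).n))
  exact ⟨h1, fun w hw => ⟨d1 w hw, d1 w hw⟩, d2, d2⟩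

/-- the volume of the pull back -/
theorem vol_pb {V : ∀ k, Setoid (S.F k).Ω} {Q : S.VV N} {G : ∀ k, (S.F k).Ω → Matrix (Mon N D) (Mon N D) ℝ}
    (kn : ∀ᶠ k in UF, Kn1 (V k) (G k)) :
    vol ((fpj S N).vv Q) D (fun k => zFD ((fpj S N).pb V k) (fun w => G k ((fpj S N).π k w))) =
      vol Q D (fun k => zFD (V k) (G k)) := by
  rw [vol_lit, vol_lit]
  refine congrArg (fun t => (N : ℝ) - t) (ul_congr ?_)
  filter_upwards [kn] with k h4
  have h5 : Kn1 ((fpj S N).pb V k) (fun w => G k ((fpj S N).π k w)) := fun w w' a b c d =>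
    h4 _ _ ((fpj S N).supp k w a) ((fpj S N).supp k w' b) c (((fpj S N).hZ k _ _ a b).mp d)
  have e1 : gG (V k) (G k) = G k := gG_eq h4
  have e2 : gG ((fpj S N).pb V k) (fun w => G k ((fpj S N).π k w)) = fun w => G k ((fpj S N).π k w) := gG_eq h5
  have e3 : av (fsp S N) (gexq ((fpj S N).vv Q) (fun k => gG ((fpj S N).pb V k) (fun w => G k ((fpj S N).π k w)))) k =
      ∑ w, ((fsp S N).F k).μ w * gexq Q (fun k => G k) k ((fpj S N).π k w) := by
    show ∑ w, ((fsp S N).F k).μ w * gexq ((fpj S N).vv Q) (fun k => gG ((fpj S N).pb V k) (fun w => G k ((fpj S N).π k w)))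
      k w = _
    refine Finset.sum_congr rfl fun w _ => ?_
    unfold gexq
    simp only [e2]
    rfl
  have e4 : av S (gexq Q (fun k => gG (V k) (G k))) k = ∑ ω, (S.F k).μ ω * gexq Q (fun k => G k) k ω := by
    show ∑ ω, (S.F k).μ ω * gexq Q (fun k => gG (V k) (G k)) k ω = _
    refine Finset.sum_congr rfl fun w _ => ?_
    unfold gexq
    simp only [e1]
  rw [e3, e4]
  exact sum_push (T := (fsp S N).F k) (F := S.F k) ⟨(fpj S N).π k, (fpj S N).law k, (fpj S N).hZ k⟩ _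

/-- the number of the form in any order of the coordinates -/
theorem full_num {V : ∀ k, Setoid (S.F k).Ω} {Q : S.VV N} {G : ∀ k, (S.F k).Ω → Matrix (Mon N D) (Mon N D) ℝ}
    (kn : ∀ᶠ k in UF, Kn1 (V k) (G k)) (fm : FmG Q (fun k => zFD (V k) (G k)))
    (fu : vol Q D (fun k => zFD (V k) (G k)) ≤ H (up1 (Lab.ofZ V) (Q.dg 1))) {m : ℕ} (f : Fin m → Fin N)
    (hf : Function.Bijective f) {κ : Type} [Finite κ] (A : κ → Part (fsp S N))
    (hA : (Lab.ofZ ((fpj S N).pb V)).DMf A) (z : ∀ k, FD ((fsp S N).F k) (Mon m D))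
    (hz : (gaq (pck ((fpj S N).vv Q) f) D).OptfK (LC.kz fun k => fc (⊥ : Setoid ((fsp S N).F k).Ω)) A z) :
    vol (pck ((fpj S N).vv Q) f) D z ≤ H (up1 (Lab.ofZ V) (Q.dg 1)) := by
  set e : Fin N ≃ Fin m := (Equiv.ofBijective f hf).symm with he
  have hP : ∀ k ω a, ((fpj S N).vv Q).v k ω a = (pck ((fpj S N).vv Q) f).v k ω (e a) := by
    intro k ω a
    show ((fpj S N).vv Q).v k ω a = ((fpj S N).vv Q).v k ω (f (e a))
    have h1 : f (e a) = a := (Equiv.ofBijective f hf).apply_symm_apply a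
    rw [h1]
  have hy := adf_pb kn fm hA
  have hdm : (lb (fun k => zFD ((fpj S N).pb V k) (fun w => G k ((fpj S N).π k w)))).DMf A := hA
  have hK : (LC.kz fun k => fc (⊥ : Setoid ((fsp S N).F k).Ω)).ev
      (lb (fun k => zFD ((fpj S N).pb V k) (fun w => G k ((fpj S N).π k w)))) :=
    kz_ofZ (R := fun k => (⊥ : Setoid ((fsp S N).F k).Ω)) (Z := (fpj S N).pb V)
      (Eventually.of_forall fun k => by rw [bot_inf_eq]; exact bot_le)
  have h1 : (gaq (pck ((fpj S N).vv Q) f) D).AdfK (LC.kz fun k => fc (⊥ : Setoid ((fsp S N).F k).Ω)) A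
      (cFD (pck ((fpj S N).vv Q) f) e (fun k => zFD ((fpj S N).pb V k) (fun w => G k ((fpj S N).π k w)))) :=
    ⟨cFD_adf hP hy hdm, hK⟩
  have h2 := volK_le hz h1
  have h3 := vol_cFD (A := A) e hP hy hdm
  rw [vol_pb kn] at h3
  linarith

end

end Pool.Agent.Helper76.FDG
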