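import Pool.Agent.Helper76.FDG.Diag
import Pool.Agent.Helper76.ADP.Prg

/-! THE GREEDY ORDER: local exponents of sets of coordinates, the order which takes the largest exponent last, the
exponents in this order are increasing and their sum is the codimension. -/

set_option autoImplicit false

namespace Pool.Agent.Helper76.FDG

open Finset Filter Topology Matrix Pool.Agent.Helper69.RK Pool.Agent.Helper31.EC Pool.Agent.Helper31.EC.Sp
open Pool.Agent.Helper40.EL
open Pool.Agent.Helper4.VZ (pc)
open Pool.Agent.Helper76.DIM (pck)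
open Pool.Agent.Helper76.ADP (pre_inj)
open Pool.Agent.Helper81.CP2 (pre)

noncomputable section

variable {N : ℕ}

/-- the first coordinates -/
def pim (o : Equiv.Perm (Fin N)) (j : Fin N) : Finset (Fin N) := univ.image (pre o j)

lemma mem_pim {o : Equiv.Perm (Fin N)} {j a : Fin N} : a ∈ pim o j ↔ ∃ i : Fin N, i ≤ j ∧ o i = a := by
  unfold pim
  rw [Finset.mem_image]
  constructor
  · rintro ⟨i, -, hi⟩
    exact ⟨⟨i, by omega⟩, Fin.le_def.mpr (Nat.lt_succ_iff.mp i.2), hi⟩
  · rintro ⟨i, hi, h⟩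
    exact ⟨⟨i, Nat.lt_succ_of_le (Fin.le_def.mp hi)⟩, Finset.mem_univ _, h⟩

/-- THE GREEDY ORDER: the largest exponent is last -/
theorem exists_greedy (f : Finset (Fin N) → Fin N → ℝ) : ∃ o : Equiv.Perm (Fin N), ∀ j : Fin N, ∀ a ∈ pim o j,
    f (pim o j) a ≤ f (pim o j) (o j) := by
  suffices h : ∀ k ≤ N, ∃ o : Equiv.Perm (Fin N), ∀ j : Fin N, N - k ≤ j → ∀ a ∈ pim o j,
      f (pim o j) a ≤ f (pim o j) (o j) by
    obtain ⟨o, ho⟩ := h N le_rfl
    exact ⟨o, fun j => ho j (by omega)⟩
  intro k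
  induction k with
  | zero => exact fun _ => ⟨Equiv.refl _, fun j hj => absurd j.2 (by omega)⟩
  | succ k ih =>
    intro hk
    obtain ⟨o, ho⟩ := ih (by omega)
    obtain ⟨j0, hj0⟩ : ∃ j0 : Fin N, (j0 : ℕ) = N - (k + 1) := ⟨⟨N - (k + 1), by omega⟩, rfl⟩
    have hne : (pim o j0).Nonempty := ⟨o j0, mem_pim.mpr ⟨j0, le_rfl, rfl⟩⟩
    obtain ⟨a0, ha0, hmax⟩ := Finset.exists_max_image (pim o j0) (f (pim o j0)) hne
    obtain ⟨i0, hi0, hoi⟩ := mem_pim.mp ha0
    have hsw : ∀ j : Fin N, j0 ≤ j → ∀ i : Fin N, i ≤ j → Equiv.swap i0 j0 i ≤ j := by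
      intro j hj i hi
      by_cases h1 : i = i0
      · rw [h1, Equiv.swap_apply_left]
        exact hj
      · by_cases h2 : i = j0
        · rw [h2, Equiv.swap_apply_right]
          exact hi0.trans hj
        · rw [Equiv.swap_apply_of_ne_of_ne h1 h2]
          exact hi
    have hpim : ∀ j : Fin N, j0 ≤ j → pim ((Equiv.swap i0 j0).trans o) j = pim o j := by
      intro j hj
      ext a
      rw [mem_pim, mem_pim]
      constructor
      · rintro ⟨i, hi, h⟩
        exact ⟨Equiv.swap i0 j0 i, hsw j hj i hi, h⟩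
      · rintro ⟨i, hi, h⟩
        refine ⟨Equiv.swap i0 j0 i, hsw j hj i hi, ?_⟩
        rw [Equiv.trans_apply, Equiv.swap_apply_self]
        exact h
    refine ⟨(Equiv.swap i0 j0).trans o, fun j hj a ha => ?_⟩
    have hjj : j0 ≤ j := Fin.le_def.mpr (by omega)
    rw [hpim j hjj] at ha ⊢
    rcases eq_or_lt_of_le hjj with h1 | h1
    · subst h1
      rw [Equiv.trans_apply, Equiv.swap_apply_right, hoi]
      exact hmax a ha
    · have h2 : j ≠ j0 := h1.ne'
      have h3 : j ≠ i0 := fun h => absurd (h ▸ hi0) (not_le.mpr h1)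
      rw [Equiv.trans_apply, Equiv.swap_apply_of_ne_of_ne h3 h2]
      exact ho j (by have := Fin.lt_def.mp h1; omega) a ha

/-- the greedy order -/
def gr (f : Finset (Fin N) → Fin N → ℝ) : Equiv.Perm (Fin N) := (exists_greedy f).choose

lemma gr_spec (f : Finset (Fin N) → Fin N → ℝ) (j : Fin N) {a : Fin N} (ha : a ∈ pim (gr f) j) :
    f (pim (gr f) j) a ≤ f (pim (gr f) j) (gr f j) := (exists_greedy f).choose_spec j a ha

lemma last_mem (o : Equiv.Perm (Fin N)) (j : Fin N) : o j ∈ pim o j := mem_pim.mpr ⟨j, le_rfl, rfl⟩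

/-- removing the last coordinate -/
lemma pim_erase (o : Equiv.Perm (Fin N)) {i j : Fin N} (h : (i : ℕ) + 1 = j) : (pim o j).erase (o j) = pim o i := by
  ext a
  rw [Finset.mem_erase, mem_pim, mem_pim]
  constructor
  · rintro ⟨h1, l, hl, rfl⟩
    refine ⟨l, ?_, rfl⟩
    have h2 : l ≠ j := fun h3 => h1 (by rw [h3])
    have h3 := Fin.le_def.mp hl
    have h4 : (l : ℕ) ≠ j := fun h5 => h2 (Fin.ext h5)
    exact Fin.le_def.mpr (by omega)
  · rintro ⟨l, hl, rfl⟩
    have h3 := Fin.le_def.mp hl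
    refine ⟨fun h4 => ?_, l, Fin.le_def.mpr (by omega), rfl⟩
    have h5 := congrArg Fin.val (o.injective h4)
    omega

lemma pim_erase0 (o : Equiv.Perm (Fin N)) {j : Fin N} (h : (j : ℕ) = 0) : (pim o j).erase (o j) = ∅ := by
  ext a
  rw [Finset.mem_erase, mem_pim]
  constructor
  · rintro ⟨h1, l, hl, rfl⟩
    have h3 := Fin.le_def.mp hl
    have h4 : l = j := Fin.ext (by omega)
    exact absurd (by rw [h4]) h1
  · intro h1
    exact absurd h1 (Finset.notMem_empty a)

lemma pim_last (o : Equiv.Perm (Fin N)) {j : Fin N} (h : (j : ℕ) + 1 = N) : pim o j = univ := by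
  ext a
  rw [mem_pim]
  refine ⟨fun _ => Finset.mem_univ _, fun _ => ⟨o.symm a, Fin.le_def.mpr ?_, o.apply_symm_apply a⟩⟩
  have := (o.symm a).2
  omega

section local_exponents

variable {S : Sp} (V : ∀ k, Setoid (S.F k).Ω) (Q : S.VV N)

/-- the cells of level one of the coordinates of a set -/
def cA (A : Finset (Fin N)) (k : ℕ) : Setoid (S.F k).Ω :=
  Setoid.ker (fun ω (i : Fin N) => if i ∈ A then Q.cellv 1 k ω i else 0)

variable {Q}

lemma cA_iff {A : Finset (Fin N)} {k : ℕ} {ω ω' : (S.F k).Ω} :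
    cA Q A k ω ω' ↔ ∀ i ∈ A, Q.cellv 1 k ω i = Q.cellv 1 k ω' i := by
  constructor
  · intro h i hi
    have h1 : (fun i : Fin N => if i ∈ A then Q.cellv 1 k ω i else 0) =
      fun i : Fin N => if i ∈ A then Q.cellv 1 k ω' i else 0 := h
    have h2 := congrFun h1 i
    simp only [if_pos hi] at h2
    exact h2
  · intro h
    show (fun i : Fin N => if i ∈ A then Q.cellv 1 k ω i else 0) =
      fun i : Fin N => if i ∈ A then Q.cellv 1 k ω' i else 0
    funext i
    by_cases hi : i ∈ A
    · simp only [if_pos hi]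
      exact h i hi
    · simp only [if_neg hi]

lemma cA_le {A B : Finset (Fin N)} (h : B ⊆ A) (k : ℕ) : cA Q A k ≤ cA Q B k := by
  intro ω ω' h1
  have h1' : cA Q A k ω ω' := h1
  rw [cA_iff] at h1'
  show cA Q B k ω ω'
  rw [cA_iff]
  exact fun i hi => h1' i (h hi)

lemma cA_inf (A B : Finset (Fin N)) (k : ℕ) : cA Q A k ⊓ cA Q B k = cA Q (A ∪ B) k := by
  ext ω ω'
  show (cA Q A k ω ω' ∧ cA Q B k ω ω') ↔ cA Q (A ∪ B) k ω ω'
  rw [cA_iff, cA_iff, cA_iff]
  constructor
  · rintro ⟨h1, h2⟩ i hi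
    rcases Finset.mem_union.mp hi with h | h
    · exact h1 i h
    · exact h2 i h
  · exact fun h => ⟨fun i hi => h i (Finset.mem_union_left _ hi), fun i hi => h i (Finset.mem_union_right _ hi)⟩

variable (Q)

/-- the local entropy of the cells of the coordinates of a set -/
def LA (A : Finset (Fin N)) (k : ℕ) (ω : (S.F k).Ω) : ℝ := lc (S.F k) (V k ⊓ (S.F k).Z) (cA Q A k) ω

/-- the local exponent of a coordinate in a set -/
def eA (A : Finset (Fin N)) (a : Fin N) (k : ℕ) (ω : (S.F k).Ω) : ℝ :=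
  1 - (LA V Q A k ω - LA V Q (A.erase a) k ω) / (S.F k).n

variable {V Q}

lemma eA_inv {k : ℕ} {ω ω' : (S.F k).Ω} (h : (V k ⊓ (S.F k).Z) ω ω') :
    (fun A a => eA V Q A a k ω) = fun A a => eA V Q A a k ω' := by
  funext A a
  unfold eA LA
  rw [lc_inv (F := S.F k) (s := V k ⊓ (S.F k).Z) h, lc_inv (F := S.F k) (s := V k ⊓ (S.F k).Z) h]

lemma eA_le_one (A : Finset (Fin N)) (a : Fin N) (k : ℕ) (ω : (S.F k).Ω) : eA V Q A a k ω ≤ 1 := by
  have h1 := lc_mono (F := S.F k) (s := V k ⊓ (S.F k).Z) (cA_le (Q := Q) (Finset.erase_subset a A) k) ω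
  have h2 := div_nonneg (sub_nonneg.mpr h1) (S.F k).pos.le
  unfold eA LA
  linarith

/-- the exponents increase with the set -/
lemma eA_mono {A : Finset (Fin N)} {a b : Fin N} (hab : a ≠ b) (k : ℕ) (ω : (S.F k).Ω) :
    eA V Q (A.erase b) a k ω ≤ eA V Q A a k ω := by
  have hn := (S.F k).pos
  have h1 := lc_sub (F := S.F k) (s := V k ⊓ (S.F k).Z) (X := cA Q (A.erase b) k) (Y := cA Q (A.erase a) k)
    (U := cA Q ((A.erase b).erase a) k) (cA_le (Finset.erase_subset _ _) k)
    (cA_le (by
      intro i hi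
      rw [Finset.mem_erase, Finset.mem_erase] at hi
      exact Finset.mem_erase.mpr ⟨hi.1, hi.2.2⟩) k) ω
  have h2 : A.erase b ∪ A.erase a = A := by
    ext i
    rw [Finset.mem_union, Finset.mem_erase, Finset.mem_erase]
    constructor
    · rintro (h | h)
      · exact h.2
      · exact h.2
    · intro h
      by_cases hi : i = b
      · exact Or.inr ⟨fun h3 => hab (h3.symm.trans hi), h⟩
      · exact Or.inl ⟨hi, h⟩
  rw [cA_inf, h2] at h1
  have h3 : LA V Q A k ω - LA V Q (A.erase a) k ω ≤ LA V Q (A.erase b) k ω - LA V Q ((A.erase b).erase a) k ω := by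
    unfold LA
    linarith
  have h4 := div_le_div_of_nonneg_right h3 hn.le
  unfold eA
  linarith

lemma LA_empty (k : ℕ) (ω : (S.F k).Ω) : LA V Q ∅ k ω = 0 := by
  apply lc_zero
  intro ω ω' _
  show cA Q ∅ k ω ω'
  rw [cA_iff]
  exact fun i hi => absurd hi (Finset.notMem_empty i)

/-- the exponents of a permutation sum up to the local codimension -/
lemma sum_eA (o : Equiv.Perm (Fin N)) (k : ℕ) (ω : (S.F k).Ω) :
    ∑ j : Fin N, eA V Q (pim o j) (o j) k ω = N - LA V Q univ k ω / (S.F k).n := by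
  rcases Nat.eq_zero_or_pos N with h0 | h0
  · subst h0
    have h1 : (univ : Finset (Fin 0)) = ∅ := Finset.univ_eq_empty
    rw [h1, Finset.sum_empty, LA_empty, zero_div, Nat.cast_zero, sub_zero]
  · -- the partial sums
    have key : ∀ m : ℕ, ∀ hm : m < N, ∑ j ∈ univ.filter (fun j : Fin N => (j : ℕ) ≤ m), eA V Q (pim o j) (o j) k ω =
        (m + 1 : ℕ) - LA V Q (pim o ⟨m, hm⟩) k ω / (S.F k).n := by
      intro m
      induction m with
      | zero =>
        intro hm
        have e1 : univ.filter (fun j : Fin N => (j : ℕ) ≤ 0) = {⟨0, hm⟩} := by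
          ext i
          rw [Finset.mem_filter, Finset.mem_singleton]
          constructor
          · rintro ⟨_, h⟩
            exact Fin.ext (by simpa using h)
          · rintro rfl
            exact ⟨Finset.mem_univ _, le_rfl⟩
        rw [e1, Finset.sum_singleton]
        unfold eA
        rw [pim_erase0 o (j := ⟨0, hm⟩) rfl, LA_empty, sub_zero]
        simp
      | succ m ih =>
        intro hm
        have h3 := ih (by omega)
        have e1 : univ.filter (fun j : Fin N => (j : ℕ) ≤ m + 1) =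
            insert ⟨m + 1, hm⟩ (univ.filter (fun j : Fin N => (j : ℕ) ≤ m)) := by
          ext i
          rw [Finset.mem_insert, Finset.mem_filter, Finset.mem_filter]
          constructor
          · rintro ⟨_, h⟩
            by_cases h6 : (i : ℕ) ≤ m
            · exact Or.inr ⟨Finset.mem_univ _, h6⟩
            · exact Or.inl (Fin.ext (by show (i : ℕ) = m + 1; omega))
          · rintro (h | h)
            · rw [h]
              exact ⟨Finset.mem_univ _, le_rfl⟩
            · exact ⟨Finset.mem_univ _, by omega⟩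
        have hnot : (⟨m + 1, hm⟩ : Fin N) ∉ univ.filter (fun j : Fin N => (j : ℕ) ≤ m) := by
          rw [Finset.mem_filter]
          rintro ⟨_, h⟩
          exact absurd h (by show ¬ (m + 1 ≤ m); omega)
        rw [e1, Finset.sum_insert hnot, h3]
        unfold eA
        rw [pim_erase o (i := ⟨m, by omega⟩) (j := ⟨m + 1, hm⟩) rfl]
        push_cast
        ring
    have h2 := key (N - 1) (by omega)
    have e1 : univ.filter (fun j : Fin N => (j : ℕ) ≤ N - 1) = univ := by
      apply Finset.filter_true_of_mem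
      intro i _
      have := i.2
      omega
    rw [e1, pim_last o (j := ⟨N - 1, by omega⟩) (by show N - 1 + 1 = N; omega)] at h2
    rw [h2]
    have h3 : N - 1 + 1 = N := by omega
    rw [h3]

/-- THE GREEDY EXPONENTS INCREASE -/
lemma gr_mono (k : ℕ) (ω : (S.F k).Ω) {i j : Fin N} (h : (i : ℕ) + 1 = j) :
    eA V Q (pim (gr fun A a => eA V Q A a k ω) i) (gr (fun A a => eA V Q A a k ω) i) k ω ≤
      eA V Q (pim (gr fun A a => eA V Q A a k ω) j) (gr (fun A a => eA V Q A a k ω) j) k ω := by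
  set o := gr fun A a => eA V Q A a k ω with ho
  have h1 : o i ∈ pim o j := mem_pim.mpr ⟨i, Fin.le_def.mpr (by omega), rfl⟩
  have h2 : o i ≠ o j := fun h3 => by
    have h4 := congrArg Fin.val (o.injective h3)
    omega
  have h3 := eA_mono (V := V) (Q := Q) (A := pim o j) h2 k ω
  rw [pim_erase o h] at h3
  exact h3.trans (gr_spec (fun A a => eA V Q A a k ω) j h1)

/-- the exponents of the projections -/
lemma ez_eA (o : Equiv.Perm (Fin N)) (j : Fin N) (i : Fin ((j : ℕ) + 1)) (k : ℕ) (ω : (S.F k).Ω) :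
    ez V (pck Q (pre o j)) i k ω = eA V Q (pim o j) (pre o j i) k ω := by
  have hinj := pre_inj o.injective j
  have e1 : Setoid.ker ((pck Q (pre o j)).cellv 1 k) = cA Q (pim o j) k := by
    ext ω ω'
    rw [cA_iff]
    constructor
    · intro h a ha
      unfold pim at ha
      rw [Finset.mem_image] at ha
      obtain ⟨l, -, rfl⟩ := ha
      have h1 : (pck Q (pre o j)).cellv 1 k ω = (pck Q (pre o j)).cellv 1 k ω' := h
      exact congrFun h1 l
    · intro h
      show (pck Q (pre o j)).cellv 1 k ω = (pck Q (pre o j)).cellv 1 k ω'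
      funext l
      exact h (pre o j l) (Finset.mem_image_of_mem _ (Finset.mem_univ _))
  have e2 : Setoid.ker (pc (pck Q (pre o j)) i k) = cA Q ((pim o j).erase (pre o j i)) k := by
    ext ω ω'
    rw [cA_iff]
    constructor
    · intro h a ha
      rw [Finset.mem_erase] at ha
      obtain ⟨h0, ha⟩ := ha
      unfold pim at ha
      rw [Finset.mem_image] at ha
      obtain ⟨l, -, rfl⟩ := ha
      have hl : l ≠ i := fun h3 => h0 (by rw [h3])
      have h1 : pc (pck Q (pre o j)) i k ω = pc (pck Q (pre o j)) i k ω' := h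
      have h2 := congrFun h1 l
      unfold pc at h2
      rw [if_neg hl, if_neg hl] at h2
      exact h2
    · intro h
      show pc (pck Q (pre o j)) i k ω = pc (pck Q (pre o j)) i k ω'
      funext l
      unfold pc
      by_cases hl : l = i
      · rw [if_pos hl, if_pos hl]
      · rw [if_neg hl, if_neg hl]
        exact h (pre o j l) (Finset.mem_erase.mpr ⟨fun h3 => hl (hinj h3),
          Finset.mem_image_of_mem _ (Finset.mem_univ _)⟩)
  unfold ez eA LA
  rw [e1, e2]

end local_exponents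

end

end Pool.Agent.Helper76.FDG
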