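import Pool.Agent.Helper31.EC.Rest

/-! LOCAL ENTROPIES: the entropy of a partition on the atom of the condition, as a function of the point. The conditional
entropies on all events which are unions of atoms are averages of the local entropies. -/

set_option autoImplicit false

namespace Pool.Agent.Helper76.FDG

open Finset Filter Topology Pool.Agent.Helper69.RK Pool.Agent.Helper31.EC

noncomputable section

variable (F : FSp)

/-- the surprisal of the atom of `X` in the atom of `s` -/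
def sur (s X : Setoid F.Ω) (ω : F.Ω) : ℝ := Real.logb 2 (pr F.μ (Quotient.mk s) ω) -
  Real.logb 2 (pr F.μ (fun ω' => (Quotient.mk X ω', Quotient.mk s ω')) ω)

/-- the entropy of `X` on the atom of `s` -/
def lc (s X : Setoid F.Ω) (ω : F.Ω) : ℝ := (F.rest (fun ω' => s ω ω')).e X s

variable {F}

lemma lc_inv {s X : Setoid F.Ω} {ω ω' : F.Ω} (h : s ω ω') : lc F s X ω = lc F s X ω' := by
  unfold lc
  have e1 : (fun ω'' => s ω ω'') = fun ω'' => s ω' ω'' := by
    funext ω''
    exact propext ⟨fun h1 => s.trans (s.symm h) h1, fun h1 => s.trans h h1⟩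
  rw [e1]

lemma pr_pos {α : Type} {μ : F.Ω → ℝ} (hμ : ∀ ω, 0 ≤ μ ω) (g : F.Ω → α) {ω : F.Ω} (h : μ ω ≠ 0) : 0 < pr μ g ω := by
  classical
  have h1 : 0 < μ ω := lt_of_le_of_ne (hμ ω) (Ne.symm h)
  have h2 : (if g ω = g ω then μ ω else 0) ≤ pr μ g ω := by
    unfold pr
    exact Finset.single_le_sum (f := fun ω' => if g ω' = g ω then μ ω' else 0) (fun ω' _ => by
      split_ifs
      · exact hμ ω'
      · exact le_rfl) (Finset.mem_univ ω)
  rw [if_pos rfl] at h2
  linarith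

lemma pr_smul {Ω α : Type} [Fintype Ω] (μ : Ω → ℝ) (c : ℝ) (g : Ω → α) (ω : Ω) :
    pr (fun ω => c * μ ω) g ω = c * pr μ g ω := by
  unfold pr
  rw [Finset.mul_sum]
  refine Finset.sum_congr rfl fun ω' _ => ?_
  split_ifs
  · rfl
  · rw [mul_zero]

lemma pr_res {Ω α : Type} [Fintype Ω] (μ : Ω → ℝ) (B : Ω → Prop) (g : Ω → α) (ω : Ω)
    (h : ∀ ω', g ω' = g ω → B ω') : pr (res μ B) g ω = pr μ g ω := by
  unfold pr
  refine Finset.sum_congr rfl fun ω' _ => ?_
  by_cases h1 : g ω' = g ω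
  · rw [if_pos h1, if_pos h1, res_pos _ _ _ (h ω' h1)]
  · rw [if_neg h1, if_neg h1]

/-- the weights of a restriction -/
lemma rest_form (B : F.Ω → Prop) : ∃ (c : ℝ) (B' : F.Ω → Prop), 0 < c ∧ (F.rest B).μ = (fun ω => c * res F.μ B' ω) ∧
    (B' = B ∨ B' = fun _ => True) := by
  by_cases h : F.pb B = 0
  · refine ⟨1, fun _ => True, one_pos, ?_, Or.inr rfl⟩
    have h1 : (F.rest B).μ = F.μ := F.restμ_eq' B h
    rw [h1]
    funext ω
    rw [one_mul, res_pos _ _ _ trivial]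
  · refine ⟨(F.pb B)⁻¹, B, inv_pos.mpr (lt_of_le_of_ne (F.pb_nonneg B) (Ne.symm h)), F.restμ_eq B h, Or.inl rfl⟩

lemma res_ne {Ω : Type} {μ : Ω → ℝ} {B : Ω → Prop} {ω : Ω} (h : res μ B ω ≠ 0) : B ω ∧ μ ω ≠ 0 := by
  by_cases h4 : B ω
  · rw [res_pos _ _ _ h4] at h
    exact ⟨h4, h⟩
  · rw [res_neg _ _ _ h4] at h
    exact absurd rfl h

lemma res_zero {Ω : Type} {μ : Ω → ℝ} (B : Ω → Prop) {ω : Ω} (h : μ ω = 0) : res μ B ω = 0 := by
  by_contra h1
  exact (res_ne h1).2 h

/-- the entropy on a union of atoms is the average of the surprisal -/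
lemma CH_sur (s X : Setoid F.Ω) {B : F.Ω → Prop} (hB : ∀ ω ω', s ω ω' → B ω → B ω') {c : ℝ} (hc : 0 < c)
    {ν : F.Ω → ℝ} (hν : ν = fun ω => c * res F.μ B ω) :
    CH ν (Quotient.mk X) (Quotient.mk s) = ∑ ω, ν ω * sur F s X ω := by
  subst hν
  unfold CH
  refine Finset.sum_congr rfl fun ω _ => ?_
  by_cases h0 : res F.μ B ω = 0
  · have h1 : (fun ω => c * res F.μ B ω) ω = 0 := by
      show c * res F.μ B ω = 0
      rw [h0, mul_zero]
    rw [h1, zero_mul, zero_mul]
  · have h2 := res_ne h0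
    congr 1
    unfold sur
    have h3 : ∀ {α : Type} (g : F.Ω → α), (∀ ω', g ω' = g ω → s ω' ω) →
        pr (fun ω => c * res F.μ B ω) g ω = c * pr F.μ g ω := by
      intro α g hg
      have h4 := pr_smul (res F.μ B) c g ω
      rw [pr_res F.μ B g ω fun ω' h => hB ω ω' (s.symm (hg ω' h)) h2.1] at h4
      exact h4
    have h5 := h3 (Quotient.mk s) fun ω' h => Quotient.exact h
    have h6 := h3 (fun ω' => (Quotient.mk X ω', Quotient.mk s ω')) fun ω' h => Quotient.exact (congrArg Prod.snd h)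
    have h7 := pr_pos F.nn (Quotient.mk s) h2.2
    have h8 := pr_pos F.nn (fun ω' => (Quotient.mk X ω', Quotient.mk s ω')) h2.2
    rw [h5, h6, Real.logb_mul hc.ne' h7.ne', Real.logb_mul hc.ne' h8.ne']
    ring

lemma e_sur (s X : Setoid F.Ω) {B : F.Ω → Prop} (hB : ∀ ω ω', s ω ω' → B ω → B ω') :
    (F.rest B).e X s = ∑ ω : F.Ω, (F.rest B).μ ω * sur F s X ω := by
  obtain ⟨c, B', hc, hμ, hB'⟩ := rest_form (F := F) B
  have hinv : ∀ ω ω', s ω ω' → B' ω → B' ω' := by
    rcases hB' with h | h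
    · rw [h]; exact hB
    · rw [h]; exact fun _ _ _ _ => trivial
  exact CH_sur s X hinv hc hμ

lemma pb_atom (s : Setoid F.Ω) (ω : F.Ω) : F.pb (fun ω' => s ω ω') = pr F.μ (Quotient.mk s) ω := by
  classical
  unfold FSp.pb mass pr
  refine Finset.sum_congr rfl fun ω' _ => ?_
  by_cases h : s ω ω'
  · rw [res_pos _ _ _ h, if_pos (Quotient.sound (s.symm h))]
  · rw [res_neg _ _ _ h, if_neg]
    exact fun h1 => h (s.symm (Quotient.exact h1))

/-- the local entropy is the average of the surprisal on the atom -/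
lemma lc_sur (s X : Setoid F.Ω) {ω : F.Ω} (h : F.μ ω ≠ 0) :
    lc F s X ω = ∑ ω' : F.Ω, res F.μ (fun ω' => s ω ω') ω' * sur F s X ω' / pr F.μ (Quotient.mk s) ω := by
  unfold lc
  rw [e_sur s X (B := fun ω' => s ω ω') fun ω1 ω2 h1 h2 => s.trans h2 h1]
  have hp := pr_pos F.nn (Quotient.mk s) h
  refine Finset.sum_congr rfl fun ω' _ => ?_
  have h1 : (F.rest (fun ω' => s ω ω')).μ ω' = (F.pb (fun ω' => s ω ω'))⁻¹ * res F.μ (fun ω' => s ω ω') ω' :=
    congrFun (F.restμ_eq (fun ω' => s ω ω') (by rw [pb_atom]; exact hp.ne')) ω'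
  rw [h1, pb_atom]
  ring

/-- the averages of the surprisal and of the local entropy agree -/
lemma sum_lc (s X : Setoid F.Ω) {B : F.Ω → Prop} (hB : ∀ ω ω', s ω ω' → B ω → B ω') :
    ∑ ω, res F.μ B ω * lc F s X ω = ∑ ω, res F.μ B ω * sur F s X ω := by
  classical
  have hP : ∀ ω ω', s ω ω' → pr F.μ (Quotient.mk s) ω = pr F.μ (Quotient.mk s) ω' := by
    intro ω ω' h
    unfold pr
    rw [show Quotient.mk s ω = Quotient.mk s ω' from Quotient.sound h]
  have h1 : ∀ ω, res F.μ B ω * lc F s X ω = ∑ ω', (if s ω ω' then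
      res F.μ B ω * (F.μ ω' * sur F s X ω' / pr F.μ (Quotient.mk s) ω') else 0) := by
    intro ω
    by_cases h0 : F.μ ω = 0
    · rw [res_zero B h0, zero_mul]
      symm
      apply Finset.sum_eq_zero
      intro ω' _
      split_ifs
      · rw [zero_mul]
      · rfl
    · rw [lc_sur s X h0, Finset.mul_sum]
      refine Finset.sum_congr rfl fun ω' _ => ?_
      by_cases h : s ω ω'
      · rw [if_pos h, res_pos _ (fun ω' => s ω ω') _ h, hP ω ω' h]
      · rw [if_neg h, res_neg _ (fun ω' => s ω ω') _ h, zero_mul, zero_div, mul_zero]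
  rw [Finset.sum_congr rfl fun ω _ => h1 ω, Finset.sum_comm]
  refine Finset.sum_congr rfl fun ω' _ => ?_
  by_cases h0 : F.μ ω' = 0
  · rw [res_zero B h0, zero_mul]
    apply Finset.sum_eq_zero
    intro ω _
    rw [h0, zero_mul, zero_div, mul_zero]
    split_ifs
    · rfl
    · rfl
  · have hp := pr_pos F.nn (Quotient.mk s) h0
    have h2 : ∀ ω, (if s ω ω' then res F.μ B ω * (F.μ ω' * sur F s X ω' / pr F.μ (Quotient.mk s) ω') else 0) =
        (if Quotient.mk s ω = Quotient.mk s ω' then res F.μ B ω else 0) *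
          (F.μ ω' * sur F s X ω' / pr F.μ (Quotient.mk s) ω') := by
      intro ω
      by_cases h : s ω ω'
      · rw [if_pos h, if_pos (Quotient.sound h)]
      · rw [if_neg h, if_neg fun h1 => h (Quotient.exact h1), zero_mul]
    rw [Finset.sum_congr rfl fun ω _ => h2 ω, ← Finset.sum_mul]
    have h3 : ∑ ω, (if Quotient.mk s ω = Quotient.mk s ω' then res F.μ B ω else 0) =
        pr (res F.μ B) (Quotient.mk s) ω' := by
      unfold pr
      refine Finset.sum_congr rfl fun ω _ => ?_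
      split_ifs
      · rfl
      · rfl
    rw [h3]
    by_cases hb : B ω'
    · rw [pr_res F.μ B (Quotient.mk s) ω' fun ω h => hB ω' ω (s.symm (Quotient.exact h)) hb, res_pos _ _ _ hb]
      field_simp
    · have h4 : pr (res F.μ B) (Quotient.mk s) ω' = 0 := by
        unfold pr
        apply Finset.sum_eq_zero
        intro ω _
        by_cases h : Quotient.mk s ω = Quotient.mk s ω'
        · rw [if_pos h, res_neg]
          exact fun h5 => hb (hB ω ω' (Quotient.exact h) h5)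
        · rw [if_neg h]
      rw [h4, res_neg _ _ _ hb]
      ring

/-- THE ENTROPY ON A UNION OF ATOMS IS THE AVERAGE OF THE LOCAL ENTROPIES -/
theorem e_lc (s X : Setoid F.Ω) {B : F.Ω → Prop} (hB : ∀ ω ω', s ω ω' → B ω → B ω') :
    (F.rest B).e X s = ∑ ω : F.Ω, (F.rest B).μ ω * lc F s X ω := by
  rw [e_sur s X hB]
  obtain ⟨c, B', hc, hμ, hB'⟩ := rest_form (F := F) B
  have hinv : ∀ ω ω', s ω ω' → B' ω → B' ω' := by
    rcases hB' with h | h
    · rw [h]; exact hB
    · rw [h]; exact fun _ _ _ _ => trivial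
  have hν : ∀ ω : F.Ω, (F.rest B).μ ω = c * res F.μ B' ω := fun ω => congrFun hμ ω
  have h1 : ∀ (f : F.Ω → ℝ), ∑ ω : F.Ω, (F.rest B).μ ω * f ω = c * ∑ ω, res F.μ B' ω * f ω := by
    intro f
    rw [Finset.mul_sum]
    refine Finset.sum_congr rfl fun ω _ => ?_
    rw [hν, mul_assoc]
  rw [h1, h1, sum_lc s X hinv]

lemma rest_true : (F.rest (fun _ => True)).μ = F.μ := by
  have h2 : F.pb (fun _ => True) = 1 := by
    unfold FSp.pb
    rw [← F.ms]
    unfold mass
    exact Finset.sum_congr rfl fun ω _ => res_pos _ _ _ trivial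
  have h4 : (F.rest (fun _ => True)).μ = fun ω => (F.pb (fun _ => True))⁻¹ * res F.μ (fun _ => True) ω :=
    F.restμ_eq _ (by rw [h2]; exact one_ne_zero)
  rw [h4]
  funext ω
  rw [h2, inv_one, one_mul, res_pos _ _ _ trivial]

/-- the entropy is the average of the local entropies -/
theorem e_lc_univ (s X : Setoid F.Ω) : F.e X s = ∑ ω, F.μ ω * lc F s X ω := by
  have h1 : ∀ ω : F.Ω, F.μ ω = res F.μ (fun _ => True) ω := fun ω => (res_pos _ _ _ trivial).symm
  have h2 := CH_sur (F := F) s X (B := fun _ => True) (fun _ _ _ _ => trivial) one_pos (ν := F.μ) (by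
    funext ω
    rw [one_mul]
    exact h1 ω)
  have h3 := sum_lc (F := F) s X (B := fun _ => True) (fun _ _ _ _ => trivial)
  have h4 : F.e X s = CH F.μ (Quotient.mk X) (Quotient.mk s) := rfl
  rw [h4, h2, Finset.sum_congr rfl fun ω _ => congrArg (fun t => t * sur F s X ω) (h1 ω), ← h3]
  exact Finset.sum_congr rfl fun ω _ => congrArg (fun t => t * lc F s X ω) (h1 ω).symm

lemma lc_nonneg (s X : Setoid F.Ω) (ω : F.Ω) : 0 ≤ lc F s X ω := FSp.e_nonneg _ _ _

/-- coarser partitions have smaller local entropies -/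
lemma lc_mono {s X Y : Setoid F.Ω} (h : Y ≤ X) (ω : F.Ω) : lc F s X ω ≤ lc F s Y ω :=
  FSp.e_mono _ fun _ _ _ _ h1 _ => h h1

lemma lc_zero {s X : Setoid F.Ω} (h : s ≤ X) (ω : F.Ω) : lc F s X ω = 0 := FSp.e_zero _ fun _ _ _ _ h1 => h h1

/-- the relative local entropy -/
def lr (F : FSp) (s X Y : Setoid F.Ω) (ω : F.Ω) : ℝ := (F.rest (fun ω' => s ω ω')).e X (Y ⊓ s)

lemma lc_chain (s X Y : Setoid F.Ω) (ω : F.Ω) : lc F s (X ⊓ Y) ω = lc F s X ω + lr F s Y X ω :=
  (F.rest (fun ω' => s ω ω')).e_chain X Y s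

/-- submodularity -/
lemma lc_sub {s X Y U : Setoid F.Ω} (hX : X ≤ U) (hY : Y ≤ U) (ω : F.Ω) :
    lc F s (X ⊓ Y) ω + lc F s U ω ≤ lc F s X ω + lc F s Y ω := by
  have h1 := lc_chain s Y X ω
  have h2 := lc_chain s U X ω
  rw [inf_eq_right.mpr hX] at h2
  rw [inf_comm Y X] at h1
  have h5 : lr F s X Y ω ≤ lr F s X U ω :=
    (F.rest (fun ω' => s ω ω')).e_anti fun _ _ _ _ h => ⟨hY h.1, h.2⟩
  linarith

end

end Pool.Agent.Helper76.FDG
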