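import Pool.Agent.Helper76.FDG.Loc
import Pool.Agent.Helper80.NSL.H1d
import Pool.Agent.Helper76.THK.Cnt

/-! FORMS OVER A PARTITION which are small at the point and dominate their derivatives: the counting inequalities, on all
events which are known to the partition. -/

set_option autoImplicit false

namespace Pool.Agent.Helper76.FDG

open Finset Filter Topology Matrix Pool.Agent.Helper69.RK Pool.Agent.Helper31.EC Pool.Agent.Helper31.EC.Sp
open Pool.Agent.Helper40.EL Pool.Agent.Helper3.LF Pool.Agent.Helper84.MT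
open Pool.Agent.Helper89.LX
open Pool.Agent.Helper14.MC
open Pool.Agent.Helper4.VZ (zex zc pc cz cz_card CNT_vz sgl Dmv rt_UB_card)
open Pool.Agent.Helper80.NSL (zex_bd h1d)
open Pool.Agent.Helper76.THK (cellv_chg1)

noncomputable section

variable {S : Sp} {m D : ℕ}

/-- A FORM over a partition, small at the point, which dominates its derivatives -/
structure PF (V : ∀ k, Setoid (S.F k).Ω) (Q : S.VV m) (G : ∀ k, (S.F k).Ω → Matrix (Mon m D) (Mon m D) ℝ) : Prop where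
  cp : ∃ C : ℝ, 0 ≤ C ∧ ∀ᶠ k in UF, ∀ ω, (S.F k).μ ω ≠ 0 → Cpd (2 ^ (C * (S.F k).n)) (G k ω)
  ms : ∀ᶠ k in UF, ∀ ω ω', (S.F k).μ ω ≠ 0 → (S.F k).μ ω' ≠ 0 → V k ω ω' → (S.F k).Z ω ω' → G k ω = G k ω'
  sm : ∀ e : ℝ, 0 < e → Typ (fun k ω => phi (S.dl 1 k) (G k ω) (Q.v k ω) ≤ 2 ^ (e * (S.F k).n))
  dm : ∀ (z : Fin m) (e : ℝ), 0 < e → Typ (fun k ω => Dmv (G k ω) (sgl z) (2 ^ ((zex Q G z k ω + e) * (S.F k).n)))

variable {V : ∀ k, Setoid (S.F k).Ω} {Q : S.VV m} {G : ∀ k, (S.F k).Ω → Matrix (Mon m D) (Mon m D) ℝ}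

/-- finer partitions -/
theorem PF.mono (x : PF V Q G) {W : ∀ k, Setoid (S.F k).Ω} (h : ∀ k, W k ≤ V k) : PF W Q G where
  cp := x.cp
  ms := by
    filter_upwards [x.ms] with k hk ω ω' a b c d using hk ω ω' a b (h k c) d
  sm := x.sm
  dm := x.dm

/-- events -/
theorem PF.rest (x : PF V Q G) (B : ∀ k, (S.F k).Ω → Prop) (hB : 0 < ul (S.pr B)) :
    PF (S := S.rest B) V (Q.rest B) G where
  cp := by
    obtain ⟨C, hC, h⟩ := x.cp
    refine ⟨C, hC, ?_⟩
    filter_upwards [h] with k hk ω hω using hk ω ((S.F k).rest_supp (B k) ω hω).1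
  ms := by
    filter_upwards [x.ms] with k hk ω ω' a b c d
    exact hk ω ω' ((S.F k).rest_supp (B k) ω a).1 ((S.F k).rest_supp (B k) ω' b).1 c d
  sm := fun e he => Sp.Typ.rest B hB (x.sm e he)
  dm := fun z e he => Sp.Typ.rest B hB (x.dm z e he)

/-- the average over the space -/
def av (S : Sp) (f : ∀ k, (S.F k).Ω → ℝ) (k : ℕ) : ℝ := ∑ ω, (S.F k).μ ω * f k ω

/-- (V) COUNTING -/
theorem PF.cnt (hD : 1 ≤ D) (x : PF V Q G) {ε : ℝ} (hε : 0 < ε) : ∀ᶠ k in UF,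
    (S.F k).e (Setoid.ker (Q.cellv 1 k)) (V k ⊓ (S.F k).Z) ≤ (m - av S (gexq Q G) k + ε) * (S.F k).n := by
  obtain ⟨C, hC, hA⟩ := x.cp
  obtain ⟨K, hK, hT⟩ := typ_sub_le (S := S) (fun k ω => phi (S.dl 1 k) (G k ω) (Q.v k ω)) x.sm
  set T : Sp := S.chg V 1 one_pos with hTdef
  have hdl : ∀ (r : ℝ) k, T.dl r k = S.dl r k := fun r k => by rw [hTdef, chg_dl, one_mul]
  have hn : ∀ k, (T.F k).n = (S.F k).n := fun k => one_mul _
  set y : T.VV m := Q.chg V 1 one_pos with hy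
  have hgx : ∀ k ω, gexq y G k ω = gexq Q G k ω := by
    intro k ω
    unfold gexq
    rw [hdl, hn]
    rfl
  have hAT : ∀ᶠ k in UF, ∀ ω, (T.F k).μ ω ≠ 0 → Cpd (2 ^ (C * (T.F k).n)) (G k ω) := by
    filter_upwards [hA] with k hk ω hω
    rw [hn]
    exact hk ω hω
  have h1 := CNT_cap (S := T) hD y G C hC hAT (by
      filter_upwards [x.ms] with k hk ω ω' h1 h2 h3
      exact hk ω ω' h1 h2 h3.1 h3.2)
    (fun k ω => phi (S.dl 1 k) (G k ω) (Q.v k ω) ≤ K k) hT K (chg_sub V 1 one_pos hK) (by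
      refine Eventually.of_forall fun k ω _ h2 => ?_
      rw [hdl]
      exact h2)
  have h2 : y.dg 1 = cl (y.bdd 1).toInf := io_eq _
  rw [h2, H_cl] at h1
  set f : ℕ → ℝ := T.rt (y.bdd 1).toInf.1 T.tr with hf
  have hUf : UB f := UB_rt _ _
  have hUg : UB (fun k => ∑ ω, (T.F k).μ ω * gexq y G k ω) := gexq_UB y G C hC hAT
  have h3 : Tendsto (fun k => f k + ∑ ω, (T.F k).μ ω * gexq y G k ω) UF
      (𝓝 (ul f + ul (fun k => ∑ ω, (T.F k).μ ω * gexq y G k ω))) := (ul_tendsto hUf).add (ul_tendsto hUg)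
  filter_upwards [h3.eventually (gt_mem_nhds (show ul f + ul (fun k => ∑ ω, (T.F k).μ ω * gexq y G k ω) < m + ε by
    linarith))] with k hk
  have hn' := (S.F k).pos
  have e1 : f k = (S.F k).e (Setoid.ker (Q.cellv 1 k)) (V k ⊓ (S.F k).Z) / (S.F k).n := by
    have e2 : f k = (S.F k).e (Setoid.ker ((Q.chg V 1 one_pos).cellv 1 k)) (⊤ ⊓ (V k ⊓ (S.F k).Z)) /
      (1 * (S.F k).n) := rfl
    have e3 : (Q.chg V 1 one_pos).cellv 1 k = Q.cellv 1 k := cellv_chg1 Q V 1 k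
    rw [e2, one_mul, top_inf_eq, e3]
  have e4 : ∑ ω, (T.F k).μ ω * gexq y G k ω = av S (gexq Q G) k := by
    refine Finset.sum_congr rfl fun ω _ => ?_
    rw [hgx]
    rfl
  rw [e1, e4, div_add' _ _ _ hn'.ne', div_lt_iff₀ hn'] at hk
  nlinarith

/-- (Z) COUNTING the cells of the other coordinates -/
theorem PF.cntz (hD : 1 ≤ D) (x : PF V Q G) (z : Fin m) {ε : ℝ} (hε : 0 < ε) : ∀ᶠ k in UF,
    (S.F k).e (Setoid.ker (pc Q z k)) (V k ⊓ (S.F k).Z) + (S.F k).n ≤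
      (m - av S (gexq Q G) k + av S (zex Q G z) k + ε) * (S.F k).n := by
  obtain ⟨C, hC, hA⟩ := x.cp
  obtain ⟨K, hK, hT⟩ := typ_sub_le (S := S) (fun k ω => phi (S.dl 1 k) (G k ω) (Q.v k ω)) x.sm
  obtain ⟨Cz, hCz, hz⟩ := zex_bd Q z G C hC hA
  have he4 : 0 < ε / 2 := by linarith
  set T : Sp := S.chg V 1 one_pos with hTdef
  have hdl : ∀ (r : ℝ) k, T.dl r k = S.dl r k := fun r k => by rw [hTdef, chg_dl, one_mul]
  have hn : ∀ k, (T.F k).n = (S.F k).n := fun k => one_mul _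
  set y : T.VV m := Q.chg V 1 one_pos with hy
  have hgx : ∀ k ω, gexq y G k ω = gexq Q G k ω := by
    intro k ω
    unfold gexq
    rw [hdl, hn]
    rfl
  have hAT : ∀ᶠ k in UF, ∀ ω, (T.F k).μ ω ≠ 0 → Cpd (2 ^ (C * (T.F k).n)) (G k ω) := by
    filter_upwards [hA] with k hk ω hω
    rw [hn]
    exact hk ω hω
  have h1 := CNT_vz (S := T) hD y z G C hC hAT (by
      filter_upwards [x.ms] with k hk ω ω' h1 h2 h3
      exact hk ω ω' h1 h2 h3.1 h3.2)
    (fun k ω => phi (S.dl 1 k) (G k ω) (Q.v k ω) ≤ K k ∧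
      Dmv (G k ω) (sgl z) (2 ^ ((zex Q G z k ω + ε / 2) * (S.F k).n))) (Typ.and hT (x.dm z (ε / 2) he4)) K
    (chg_sub V 1 one_pos hK) (by
      refine Eventually.of_forall fun k ω _ h2 => ?_
      rw [hdl]
      exact h2.1)
    (fun k ω => zex Q G z k ω + ε / 2) (Cz + ε / 2) (by
      filter_upwards [hz] with k hk ω hω
      have := hk ω hω
      constructor <;> linarith) (by
      refine Eventually.of_forall fun k ω _ h2 => ?_
      rw [hn]
      exact h2.2) 0 le_rfl zero_le_one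
  set f : ℕ → ℝ := T.rt (fun k => Setoid.ker (cz y z 0 k)) T.tr with hf
  have hUf : UB f := rt_UB_card (S := T) _ _ (2 * m) (by positivity) (cz_card y z 0 zero_le_one)
  have hUg : UB (fun k => ∑ ω, (T.F k).μ ω * gexq y G k ω) := gexq_UB y G C hC hAT
  have hUh : UB (fun k => ∑ ω, (T.F k).μ ω * max (zex Q G z k ω + ε / 2) 0) := by
    apply UB_of_nonneg_le (C := Cz + ε / 2)
    · exact Eventually.of_forall fun k => Finset.sum_nonneg fun ω _ =>
        mul_nonneg ((T.F k).nn ω) (le_max_right _ _)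
    · filter_upwards [hz] with k hk
      exact sum_mul_le (F := T.F k) _ _ fun ω hω => max_le (by linarith [(hk ω hω).2]) (by linarith)
  have h3 : Tendsto (fun k => f k + ∑ ω, (T.F k).μ ω * gexq y G k ω -
      ∑ ω, (T.F k).μ ω * max (zex Q G z k ω + ε / 2) 0) UF
      (𝓝 (ul f + ul (fun k => ∑ ω, (T.F k).μ ω * gexq y G k ω) -
        ul (fun k => ∑ ω, (T.F k).μ ω * max (zex Q G z k ω + ε / 2) 0))) :=
    ((ul_tendsto hUf).add (ul_tendsto hUg)).sub (ul_tendsto hUh)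
  filter_upwards [h3.eventually (gt_mem_nhds (show ul f + ul (fun k => ∑ ω, (T.F k).μ ω * gexq y G k ω) -
    ul (fun k => ∑ ω, (T.F k).μ ω * max (zex Q G z k ω + ε / 2) 0) < m - 1 + ε / 2 by linarith)), hz] with k hk hzk
  have hn' := (S.F k).pos
  have e1 : (S.F k).e (Setoid.ker (pc Q z k)) (V k ⊓ (S.F k).Z) / (S.F k).n ≤ f k := by
    have e2 : f k = (S.F k).e (Setoid.ker (cz y z 0 k)) (⊤ ⊓ (V k ⊓ (S.F k).Z)) / (1 * (S.F k).n) := rfl
    rw [e2, one_mul, top_inf_eq]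
    apply div_le_div_of_nonneg_right _ hn'.le
    apply FSp.e_mono
    intro ω ω' _ _ h4 _
    have h5 : cz y z 0 k ω = cz y z 0 k ω' := h4
    show pc Q z k ω = pc Q z k ω'
    funext i
    have h6 := congrFun h5 i
    unfold cz at h6
    unfold pc
    by_cases hi : i = z
    · rw [if_pos hi, if_pos hi]
    · rw [if_neg hi] at h6
      rw [if_neg hi, if_neg hi]
      have e5 : T.dl 1 k = S.dl 1 k := hdl 1 k
      rw [e5] at h6
      exact h6
  have e4 : ∑ ω, (T.F k).μ ω * gexq y G k ω = av S (gexq Q G) k := by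
    refine Finset.sum_congr rfl fun ω _ => ?_
    rw [hgx]
    rfl
  have e5 : ∑ ω, (T.F k).μ ω * max (zex Q G z k ω + ε / 2) 0 = av S (zex Q G z) k + ε / 2 := by
    have h5 : ∑ ω, (S.F k).μ ω = 1 := (S.F k).ms
    have h6 : av S (zex Q G z) k + ε / 2 = ∑ ω, (S.F k).μ ω * (zex Q G z k ω + ε / 2) := by
      unfold av
      have e6 : ∀ ω, (S.F k).μ ω * (zex Q G z k ω + ε / 2) = (S.F k).μ ω * zex Q G z k ω + (S.F k).μ ω * (ε / 2) :=
        fun ω => by ring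
      rw [Finset.sum_congr rfl fun ω _ => e6 ω, Finset.sum_add_distrib, ← Finset.sum_mul, h5, one_mul]
    rw [h6]
    refine Finset.sum_congr rfl fun ω _ => ?_
    by_cases h0 : (S.F k).μ ω = 0
    · have h0' : (T.F k).μ ω = 0 := h0
      rw [h0', h0, zero_mul, zero_mul]
    · have := (hzk ω h0).1
      rw [max_eq_left (by linarith)]
      rfl
  rw [e4, e5] at hk
  have h7 : (S.F k).e (Setoid.ker (pc Q z k)) (V k ⊓ (S.F k).Z) / (S.F k).n + 1 ≤
      m - av S (gexq Q G) k + av S (zex Q G z) k + ε := by linarith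
  have h8 := mul_le_mul_of_nonneg_right h7 hn'.le
  rw [add_mul, div_mul_cancel₀ _ hn'.ne', one_mul] at h8
  exact h8

/-- (T) ONE COORDINATE -/
theorem PF.one (hD : 1 ≤ D) (x : PF V Q G) (z : Fin m) {ε : ℝ} (hε : 0 < ε) : ∀ᶠ k in UF,
    (S.F k).e (Setoid.ker (Q.cellv 1 k)) (V k ⊓ (S.F k).Z) ≤ (S.F k).e (Setoid.ker (pc Q z k)) (V k ⊓ (S.F k).Z) +
      (av S (fun k ω => max (1 - zex Q G z k ω) 0) k + ε) * (S.F k).n := by
  obtain ⟨C, hC, hA⟩ := x.cp
  have h1 := h1d hD Q z V G C hC hA x.ms x.sm (fun k ω => zex Q G z k ω) (fun e he => by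
      refine Sp.Typ.mono Typ_true (Eventually.of_forall fun k ω _ _ => ?_)
      linarith) 1 zero_le_one le_rfl (fun k => fc (Setoid.ker (zc Q z 1 k)))
    (fun k => fc (V k) ⊔ fc (Setoid.ker (pc Q z k))) (fun k => le_rfl) (fun k => le_rfl) ε hε
  filter_upwards [h1] with k hk
  rw [← fc_inf, h_fc] at hk
  have h2 := (S.F k).e_chain (Setoid.ker (pc Q z k)) (Setoid.ker (zc Q z 1 k)) (V k ⊓ (S.F k).Z)
  have h3 : (S.F k).e (Setoid.ker (Q.cellv 1 k)) (V k ⊓ (S.F k).Z) ≤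
      (S.F k).e (Setoid.ker (pc Q z k) ⊓ Setoid.ker (zc Q z 1 k)) (V k ⊓ (S.F k).Z) := by
    apply FSp.e_mono
    intro ω ω' _ _ h4 _
    have h5 : pc Q z k ω = pc Q z k ω' := h4.1
    have h6 : zc Q z 1 k ω = zc Q z 1 k ω' := h4.2
    show Q.cellv 1 k ω = Q.cellv 1 k ω'
    funext i
    by_cases hi : i = z
    · subst hi
      exact h6
    · have h7 := congrFun h5 i
      unfold pc at h7
      rw [if_neg hi, if_neg hi] at h7
      exact h7
  have h4 : (S.F k).e (Setoid.ker (zc Q z 1 k)) (Setoid.ker (pc Q z k) ⊓ (V k ⊓ (S.F k).Z)) =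
      (S.F k).e (Setoid.ker (zc Q z 1 k)) (V k ⊓ Setoid.ker (pc Q z k) ⊓ (S.F k).Z) := by
    apply FSp.e_congr_right
    intro ω ω' _ _
    exact ⟨fun h => ⟨⟨h.2.1, h.1⟩, h.2.2⟩, fun h => ⟨h.1.2, h.1.1, h.2⟩⟩
  have h5 : (∑ ω, (S.F k).μ ω * max (1 - zex Q G z k ω) 0) = av S (fun k ω => max (1 - zex Q G z k ω) 0) k := rfl
  rw [h5] at hk
  linarith

end

end Pool.Agent.Helper76.FDG
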