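import Pool.Agent.Helper76.FDG.Cod

/-! ROWS IN THE GREEDY ORDER: the best rows of the prefix forms, bounds of all of them with the local exponents, and the
rows for every split. -/

set_option autoImplicit false

namespace Pool.Agent.Helper76.FDG

open Finset Filter Topology Matrix Metric Pool.Agent.Helper69.RK Pool.Agent.Helper31.EC Pool.Agent.Helper31.EC.Sp
open Pool.Agent.Helper40.EL
open Pool.Agent.Helper95.LF (PdM)
open Pool.Agent.Helper3.LF Pool.Agent.Helper84.MT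
open Pool.Agent.Helper89.LX
open Pool.Agent.Helper14.MC
open Pool.Agent.Helper4.VZ (zex sgl sgl_Jq)
open Pool.Agent.Helper80.NSL (zex_bd)
open Pool.Agent.Helper76.RL (fam fam_deg Rw)
open Pool.Agent.Helper76.DIM (pck fac)
open Pool.Agent.Helper76.PUR (rows_bd nRw)
open Pool.Agent.Helper76.THK (e00 nodp_zero)
open Pool.Agent.Helper76.ADP
open Pool.Agent.Helper81.CP2 (pre)

noncomputable section

variable {S : Sp} {N : ℕ} {V : ∀ k, Setoid (S.F k).Ω} {Q : S.VV N} {D : Equiv.Perm (Fin N) → Fin N → ℕ}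
    {G : ∀ (o : Equiv.Perm (Fin N)) (j : Fin N) (k : ℕ), (S.F k).Ω →
      Matrix (Mon ((j : ℕ) + 1) (D o j)) (Mon ((j : ℕ) + 1) (D o j)) ℝ}

lemma Fam.pd (x : Fam V Q D G) (o : Equiv.Perm (Fin N)) (j : Fin N) :
    ∀ᶠ k in UF, ∀ ω, (S.F k).μ ω ≠ 0 → PdM (G o j k ω) := by
  obtain ⟨C, hC, hA⟩ := (x.pf o j).cp
  filter_upwards [hA] with k hk ω hω using (hk ω hω).pdM

/-- the exponent determines the diagonal entry -/
lemma zex_eq {m D : ℕ} (y : S.VV m) (A : ∀ k, (S.F k).Ω → Matrix (Mon m D) (Mon m D) ℝ) (z : Fin m) {k : ℕ}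
    {ω : (S.F k).Ω} (h : PdM (A k ω)) :
    (1 + Jq (S.dl 1 k) (A k ω) (y.v k ω)) z z = 2 ^ (2 * zex y A z k ω * (S.F k).n) := by
  have hn := (S.F k).pos
  have hJ : 0 ≤ Jq (S.dl 1 k) (A k ω) (y.v k ω) z z := by
    have := Jq_nonneg (S.dl 1 k) h.nonneg (y.v k ω) (sgl z)
    rwa [sgl_Jq] at this
  have h1 : 2 * zex y A z k ω * (S.F k).n = Real.logb 2 (1 + Jq (S.dl 1 k) (A k ω) (y.v k ω) z z) := by
    unfold zex
    field_simp
  rw [h1, Real.rpow_logb (by norm_num) (by norm_num) (by linarith), Matrix.add_apply, Matrix.one_apply_eq]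

/-- the rows are small -/
lemma tri_bd (x : Fam V Q D G) (o : Equiv.Perm (Fin N)) (J : Fin N) {η : ℝ} (hη : 0 < η) :
    Typ (fun k ω => |MvPolynomial.eval (Q.v k ω) (ppol Q o (G o) J k ω)| ≤ 2 ^ (η * (S.F k).n)) := by
  obtain ⟨Kq, hKq, hQ⟩ := Q.bd
  refine ((x.pf o J).sm (η / 2) (by linarith)).mono ?_
  have hS1 : S.Sub (fun k => 2 * Pool.Agent.Helper76.RL.cP ((J : ℕ) + 1) (D o J) * (|Kq k| + 1)) := by
    have hKq' : S.Sub (fun k => |Kq k|) := by
      refine sub_congr hKq ?_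
      filter_upwards [hKq.1] with k hk
      exact (abs_of_nonneg hk).symm
    have := Pool.Agent.Helper76.RL.cP_one ((J : ℕ) + 1) (D o J)
    exact (S.Sub_const (by positivity)).mul (hKq'.add (S.Sub_const zero_le_one))
  filter_upwards [x.pd o J, hQ, hS1.eventually_le (show 0 < η / 2 by linarith)] with k a1 a2 a3 ω hω h
  have hn := (S.F k).pos
  have hT1 : (1 : ℝ) ≤ 2 ^ (η / 2 * (S.F k).n) := Real.one_le_rpow (by norm_num) (by positivity)
  rw [ppol_eval]
  set T : ℝ := 2 ^ (η / 2 * (S.F k).n) with hT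
  have h0 := abs_nonneg (Kq k)
  have h1 := rows_bd (a1 ω hω) (S.dl_pos 1 k) (dl_one_le S k) (K := (|Kq k| + 1) * T)
    (one_le_mul_of_one_le_of_one_le (by linarith) hT1) ((pck Q (pre o J)).v k ω) (h.trans (by nlinarith))
    (fun i => (a2 ω hω _).trans ((le_abs_self _).trans (by nlinarith))) (prow Q o (G o) J k ω) (fun _ => 0)
  rw [nodp_zero] at h1
  refine h1.trans ?_
  unfold Pool.Agent.Helper76.PUR.cW
  have h5 : (2 : ℝ) ^ (η * (S.F k).n) = T * T := by
    rw [hT, ← Real.rpow_add (by norm_num)]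
    congr 1
    ring
  rw [h5, ← mul_assoc]
  exact mul_le_mul_of_nonneg_right (by linarith) (by linarith)

/-- the gradients of the rows -/
lemma tri_der (x : Fam V Q D G) (o : Equiv.Perm (Fin N)) (J : Fin N) {η : ℝ} (hη : 0 < η) :
    Typ (fun k ω => ∀ w : ℝ, (∀ a ∈ pim o J, max (eA (cW Q G V) Q (pim o J) a k ω) 0 ≤ w) →
      ∀ y : Fin N → ℝ, (∀ i, |y i - Q.v k ω i| ≤ S.dl 1 k) → ∀ a,
        |MvPolynomial.eval y (MvPolynomial.pderiv a (ppol Q o (G o) J k ω))| ≤ 2 ^ ((w + η) * (S.F k).n)) := by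
  refine (close x (show 0 < η / 4 by linarith)).mono ?_
  have hS1 : S.Sub (fun _ => cG ((J : ℕ) + 1) (D o J)) :=
    S.Sub_const (by have := cG_one ((J : ℕ) + 1) (D o J); linarith)
  have hS2 : S.Sub (fun _ => ((J : ℕ) + 1 : ℝ)) := S.Sub_const (by positivity)
  filter_upwards [x.pd o J, hS1.eventually_le (show 0 < η / 2 by linarith),
    hS2.eventually_le (show 0 < η / 2 by linarith)] with k a1 a3 a4 ω hω hcl w hw y hy a
  have hn := (S.F k).pos
  have hA := a1 ω hω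
  have hw0 : 0 ≤ w := (le_max_right _ _).trans (hw (o J) (last_mem o J))
  by_cases ha : a ∈ Set.range (pre o J)
  · obtain ⟨i, rfl⟩ := ha
    rw [ppol_der Q (G o) o.injective]
    have hG1 : (1 : ℝ) ≤ 2 ^ ((w + η / 2) * (S.F k).n) := by
      apply Real.one_le_rpow (by norm_num)
      positivity
    have htr : (Jq (S.dl 1 k) (G o J k ω) ((pck Q (pre o J)).v k ω)).trace ≤ (2 ^ ((w + η / 2) * (S.F k).n)) ^ 2 := by
      have h1 : ∀ l : Fin ((J : ℕ) + 1), Jq (S.dl 1 k) (G o J k ω) ((pck Q (pre o J)).v k ω) l l ≤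
          2 ^ (2 * (w + η / 4) * (S.F k).n) := by
        intro l
        have h2 := zex_eq (pck Q (pre o J)) (G o J) l hA
        rw [Matrix.add_apply, Matrix.one_apply_eq] at h2
        have h3 := hcl o J l
        have h4 := hw (pre o J l) (Finset.mem_image_of_mem _ (Finset.mem_univ _))
        have h5 : (2 : ℝ) ^ (2 * zex (pck Q (pre o J)) (G o J) l k ω * (S.F k).n) ≤
            2 ^ (2 * (w + η / 4) * (S.F k).n) := by
          apply Real.rpow_le_rpow_of_exponent_le (by norm_num)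
          apply mul_le_mul_of_nonneg_right _ hn.le
          have := (abs_le.mp h3).2
          linarith
        linarith
      have h2 : (Jq (S.dl 1 k) (G o J k ω) ((pck Q (pre o J)).v k ω)).trace ≤
          ((J : ℕ) + 1 : ℝ) * 2 ^ (2 * (w + η / 4) * (S.F k).n) := by
        unfold Matrix.trace
        refine (Finset.sum_le_card_nsmul _ _ _ fun l _ => h1 l).trans (le_of_eq ?_)
        rw [Finset.card_univ, Fintype.card_fin, nsmul_eq_mul]
        push_cast
        ring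
      refine h2.trans ?_
      have e1 : ((2 : ℝ) ^ ((w + η / 2) * (S.F k).n)) ^ 2 = 2 ^ (η / 2 * (S.F k).n) *
          2 ^ (2 * (w + η / 4) * (S.F k).n) := by
        rw [← Real.rpow_natCast, ← Real.rpow_mul (by norm_num), ← Real.rpow_add (by norm_num)]
        congr 1
        push_cast
        ring
      rw [e1]
      exact mul_le_mul_of_nonneg_right (by linarith) (by positivity)
    have h1 := row_grad hA (S.dl_pos 1 k) (x := (pck Q (pre o J)).v k ω) (y := fun i => y (pre o J i))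
      (fun i => hy _) hG1 htr (prow Q o (G o) J k ω) i
    refine h1.trans ?_
    have h5 : (2 : ℝ) ^ ((w + η) * (S.F k).n) =
        2 ^ (η / 2 * (S.F k).n) * 2 ^ ((w + η / 2) * (S.F k).n) := by
      rw [← Real.rpow_add (by norm_num)]
      congr 1
      ring
    rw [h5]
    exact mul_le_mul_of_nonneg_right (by linarith) (by linarith)
  · rw [ppol_der0 Q (G o) J k ω a ha, map_zero, abs_zero]
    positivity

/-- the last derivative of the row -/
lemma tri_low (x : Fam V Q D G) (o : Equiv.Perm (Fin N)) (J : Fin N) {η : ℝ} (hη : 0 < η) :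
    Typ (fun k ω => 2 ^ ((max (eA (cW Q G V) Q (pim o J) (o J) k ω) 0 - η) * (S.F k).n) ≤
      |MvPolynomial.eval (Q.v k ω) (MvPolynomial.pderiv (o J) (ppol Q o (G o) J k ω))|) := by
  refine (close x (show 0 < η / 2 by linarith)).mono ?_
  have hS1 : S.Sub (fun _ => (nRw ((J : ℕ) + 1) (D o J) : ℝ)) := S.Sub_const (Nat.cast_nonneg _)
  filter_upwards [x.pd o J, hS1.eventually_le hη] with k a1 a3 ω hω hcl
  have hn := (S.F k).pos
  have hA := a1 ω hω
  have e1 : o J = pre o J (Fin.last J) := rfl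
  have h := zex_eq (pck Q (pre o J)) (G o J) (Fin.last (J : ℕ)) hA
  have h0 := (abs_le.mp (hcl o J (Fin.last J))).1
  rw [← e1] at h0
  set W : ℝ := max (eA (cW Q G V) Q (pim o J) (o J) k ω) 0 with hW
  have h' : (2 : ℝ) ^ (2 * (W - η / 2) * (S.F k).n) ≤
      (1 + Jq (S.dl 1 k) (G o J k ω) ((pck Q (pre o J)).v k ω)) (Fin.last (J : ℕ)) (Fin.last (J : ℕ)) := by
    rw [h]
    apply Real.rpow_le_rpow_of_exponent_le (by norm_num)
    apply mul_le_mul_of_nonneg_right _ hn.le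
    linarith
  rw [e1, ppol_der Q (G o) o.injective]
  have h1 := h'.trans (prow_spec Q o (G o) hA)
  have e2 : (fun i => Q.v k ω (pre o J i)) = (pck Q (pre o J)).v k ω := rfl
  rw [e2]
  generalize MvPolynomial.eval ((pck Q (pre o J)).v k ω)
    (MvPolynomial.pderiv (Fin.last J) (fam (fac (G o J k ω)) (S.dl 1 k) (prow Q o (G o) J k ω))) = d at h1 ⊢
  have h2 : (nRw ((J : ℕ) + 1) (D o J) : ℝ) * d ^ 2 ≤ 2 ^ (η * (S.F k).n) * d ^ 2 :=
    mul_le_mul_of_nonneg_right (by linarith) (sq_nonneg _)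
  have h3 : (2 ^ ((W - η) * (S.F k).n)) ^ 2 ≤ d ^ 2 := by
    have h4 : (2 : ℝ) ^ (2 * (W - η / 2) * (S.F k).n) =
        2 ^ (η * (S.F k).n) * (2 ^ ((W - η) * (S.F k).n)) ^ 2 := by
      rw [← Real.rpow_natCast, ← Real.rpow_mul (by norm_num), ← Real.rpow_add (by norm_num)]
      congr 1
      push_cast
      ring
    have h5 := h1.trans h2
    rw [h4] at h5
    exact le_of_mul_le_mul_left h5 (by positivity)
  have h6 : (0 : ℝ) ≤ 2 ^ ((W - η) * (S.F k).n) := by positivity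
  rw [← abs_of_nonneg h6]
  exact sq_le_sq.mp h3

section

variable (Q G V)

/-- THE GREEDY ORDER -/
def go (k : ℕ) (ω : (S.F k).Ω) : Equiv.Perm (Fin N) := gr fun A a => eA (cW Q G V) Q A a k ω

/-- THE EXPONENTS in the greedy order -/
def gw (k : ℕ) (ω : (S.F k).Ω) (j : Fin N) : ℝ :=
  max (eA (cW Q G V) Q (pim (go V Q G k ω) j) (go V Q G k ω j) k ω) 0

/-- the rows in the greedy order -/
def gf (k : ℕ) (ω : (S.F k).Ω) (j : Fin N) : MvPolynomial (Fin N) ℝ := ppol Q (go V Q G k ω) (G (go V Q G k ω)) j k ω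

variable {Q G V}

lemma go_inv {k : ℕ} {ω ω' : (S.F k).Ω} (hz : (S.F k).Z ω ω') (h : cW Q G V k ω ω') : go V Q G k ω = go V Q G k ω' := by
  unfold go
  rw [eA_inv (V := cW Q G V) (Q := Q) (show (cW Q G V k ⊓ (S.F k).Z) ω ω' from ⟨h, hz⟩)]

lemma gw_inv {k : ℕ} {ω ω' : (S.F k).Ω} (hz : (S.F k).Z ω ω') (h : cW Q G V k ω ω') : gw V Q G k ω = gw V Q G k ω' := by
  funext j
  unfold gw
  rw [go_inv hz h]
  have h1 := eA_inv (V := cW Q G V) (Q := Q) (show (cW Q G V k ⊓ (S.F k).Z) ω ω' from ⟨h, hz⟩)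
  have h2 := congrFun (congrFun h1 (pim (go V Q G k ω') j)) (go V Q G k ω' j)
  rw [h2]

lemma gw_nonneg (k : ℕ) (ω : (S.F k).Ω) (j : Fin N) : 0 ≤ gw V Q G k ω j := le_max_right _ _

lemma gw_le_one (k : ℕ) (ω : (S.F k).Ω) (j : Fin N) : gw V Q G k ω j ≤ 1 := max_le (eA_le_one _ _ _ _) zero_le_one

lemma gw_succ (k : ℕ) (ω : (S.F k).Ω) {i j : Fin N} (h : (i : ℕ) + 1 = j) : gw V Q G k ω i ≤ gw V Q G k ω j :=
  max_le_max (gr_mono (V := cW Q G V) (Q := Q) k ω h) le_rfl

/-- THE EXPONENTS INCREASE -/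
lemma gw_mono (k : ℕ) (ω : (S.F k).Ω) {i j : Fin N} (h : i ≤ j) : gw V Q G k ω i ≤ gw V Q G k ω j := by
  have key : ∀ d : ℕ, ∀ j : Fin N, (i : ℕ) + d = j → gw V Q G k ω i ≤ gw V Q G k ω j := by
    intro d
    induction d with
    | zero =>
      intro j hj
      have : i = j := Fin.ext (by omega)
      rw [this]
    | succ d ih =>
      intro j hj
      have h1 := j.2
      have h2 := ih ⟨(i : ℕ) + d, by omega⟩ rfl
      exact h2.trans (gw_succ k ω (by show (i : ℕ) + d + 1 = j; omega))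
  exact key ((j : ℕ) - i) j (by have := Fin.le_def.mp h; omega)

/-- all exponents of the prefix are at most the last one -/
lemma gw_top (k : ℕ) (ω : (S.F k).Ω) (j : Fin N) {a : Fin N} (ha : a ∈ pim (go V Q G k ω) j) :
    max (eA (cW Q G V) Q (pim (go V Q G k ω) j) a k ω) 0 ≤ gw V Q G k ω j :=
  max_le_max (gr_spec (fun A a => eA (cW Q G V) Q A a k ω) j ha) le_rfl

lemma cA_univ (k : ℕ) : cA Q univ k = Setoid.ker (Q.cellv 1 k) := by
  ext ω ω'
  rw [cA_iff]
  constructor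
  · intro h
    show Q.cellv 1 k ω = Q.cellv 1 k ω'
    funext i
    exact h i (Finset.mem_univ i)
  · intro h i _
    have h1 : Q.cellv 1 k ω = Q.cellv 1 k ω' := h
    exact congrFun h1 i

/-- THE SUM of the exponents -/
lemma gw_sum (k : ℕ) : (N : ℝ) * (S.F k).n ≤ (S.F k).e (Setoid.ker (Q.cellv 1 k)) (cW Q G V k ⊓ (S.F k).Z) +
    (S.F k).n * ∑ ω, (S.F k).μ ω * ∑ j : Fin N, gw V Q G k ω j := by
  have hn := (S.F k).pos
  have h0 : ∑ ω, (S.F k).μ ω = 1 := (S.F k).ms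
  have h1 : (S.F k).e (Setoid.ker (Q.cellv 1 k)) (cW Q G V k ⊓ (S.F k).Z) =
      ∑ ω, (S.F k).μ ω * LA (cW Q G V) Q univ k ω := by
    rw [e_lc_univ, ← cA_univ]
    rfl
  have h2 : ∀ ω, (N : ℝ) * (S.F k).n ≤ LA (cW Q G V) Q univ k ω + (S.F k).n * ∑ j : Fin N, gw V Q G k ω j := by
    intro ω
    have h3 := sum_eA (V := cW Q G V) (Q := Q) (go V Q G k ω) k ω
    have h4 : ∑ j : Fin N, eA (cW Q G V) Q (pim (go V Q G k ω) j) (go V Q G k ω j) k ω ≤ ∑ j : Fin N, gw V Q G k ω j :=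
      Finset.sum_le_sum fun j _ => le_max_left _ _
    rw [h3, sub_le_iff_le_add, ← sub_le_iff_le_add', le_div_iff₀ hn] at h4
    linarith
  rw [h1, Finset.mul_sum, ← Finset.sum_add_distrib]
  have h3 : (N : ℝ) * (S.F k).n = ∑ ω, (S.F k).μ ω * ((N : ℝ) * (S.F k).n) := by
    rw [← Finset.sum_mul, h0, one_mul]
  rw [h3]
  refine Finset.sum_le_sum fun ω _ => ?_
  have h4 := mul_le_mul_of_nonneg_left (h2 ω) ((S.F k).nn ω)
  refine h4.trans (le_of_eq ?_)
  ring

lemma gf_inv (x : Fam V Q D G) : ∀ᶠ k in UF, ∀ ω ω', (S.F k).μ ω ≠ 0 → (S.F k).μ ω' ≠ 0 → (S.F k).Z ω ω' →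
    cW Q G V k ω ω' → gf V Q G k ω = gf V Q G k ω' := by
  have h1 : ∀ᶠ k in UF, ∀ (o : Equiv.Perm (Fin N)) (j : Fin N) ω ω', (S.F k).μ ω ≠ 0 → (S.F k).μ ω' ≠ 0 →
      V k ω ω' → (S.F k).Z ω ω' → G o j k ω = G o j k ω' := by
    rw [eventually_all]
    intro o
    rw [eventually_all]
    exact fun j => (x.pf o j).ms
  filter_upwards [h1] with k hk ω ω' a b z h
  have e1 : brw Q G k ω = brw Q G k ω' := h.2.2
  funext j
  unfold gf
  rw [go_inv z h]
  have e2 : prow Q (go V Q G k ω') (G (go V Q G k ω')) j k ω = prow Q (go V Q G k ω') (G (go V Q G k ω')) j k ω' :=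
    congrFun e1 (go V Q G k ω', j)
  unfold ppol
  rw [hk _ j ω ω' a b h.1 z, e2]

/-- ROWS FOR EVERY SPLIT -/
theorem rows_split (x : Fam V Q D G) {Dm : ℕ} (hDm : ∀ (o : Equiv.Perm (Fin N)) (j : Fin N), D o j ≤ Dm) {v q : ℕ}
    (hvq : v + q = N) (h0 : ∀ ε : ℝ, 0 < ε → Typ (S := S) fun k ω => ∀ j : Fin v,
      gw V Q G k ω (e00 hvq (Sum.inl j)) ≤ ε) :
    RowsF (cW Q G V) Q Dm (fun k ω => (e00 hvq).trans (go V Q G k ω))
      (fun k ω j => gf V Q G k ω (e00 hvq (Sum.inr j))) (fun k ω j => gw V Q G k ω (e00 hvq (Sum.inr j))) := by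
  classical
  refine ⟨?_, ?_, ?_, ?_, ?_, ?_, ?_, ?_, ?_⟩
  · exact Eventually.of_forall fun k ω _ j => ⟨gw_nonneg k ω _, gw_le_one k ω _⟩
  · refine Eventually.of_forall fun k ω _ j => ?_
    refine (MvPolynomial.totalDegree_rename_le _ _).trans ?_
    exact (Pool.Agent.Helper76.RL.fam_deg (x.D1 _ _) _ _ _).trans (hDm _ _)
  · refine Eventually.of_forall fun k ω ω' _ _ z h => ?_
    rw [go_inv z h]
  · filter_upwards [gf_inv x] with k hk ω ω' a b z h
    rw [hk ω ω' a b z h]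
  · refine Eventually.of_forall fun k ω ω' _ _ z h => ?_
    rw [gw_inv z h]
  · intro η hη
    refine (Pool.Agent.Helper63.MT.typ_all fun o : Equiv.Perm (Fin N) => Pool.Agent.Helper63.MT.typ_all fun J : Fin N =>
      tri_bd x o J hη).mono (Eventually.of_forall fun k ω _ h j => h _ _)
  · intro η hη
    refine (Pool.Agent.Helper63.MT.typ_all fun o : Equiv.Perm (Fin N) => Pool.Agent.Helper63.MT.typ_all fun J : Fin N =>
      tri_der x o J hη).mono (Eventually.of_forall fun k ω _ h y hy j a => ?_)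
    exact h (go V Q G k ω) (e00 hvq (Sum.inr j)) _ (fun a ha => gw_top k ω _ ha) y hy a
  · intro η hη
    have hqp : (0 : ℝ) < q + 1 := by positivity
    refine (Pool.Agent.Helper63.MT.typ_all fun o : Equiv.Perm (Fin N) => Pool.Agent.Helper63.MT.typ_all fun J : Fin N =>
      tri_low x o J (show 0 < η / (q + 1) by positivity)).mono (Eventually.of_forall fun k ω _ h => ?_)
    have hn := (S.F k).pos
    set o := go V Q G k ω with ho
    have hent : ∀ j i : Fin q, rmx ((e00 hvq).trans o) (fun j => gf V Q G k ω (e00 hvq (Sum.inr j))) (Q.v k ω) j i =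
        MvPolynomial.eval (Q.v k ω) (MvPolynomial.pderiv (o (e00 hvq (Sum.inr i)))
          (ppol Q o (G o) (e00 hvq (Sum.inr j)) k ω)) := by
      intro j i
      unfold rmx
      rw [Matrix.of_apply, Equiv.trans_apply]
      rfl
    have htri : (rmx ((e00 hvq).trans o) (fun j => gf V Q G k ω (e00 hvq (Sum.inr j)))
        (Q.v k ω)).IsLowerTriangular := by
      intro j i hji
      have hji' : j < i := hji
      have h1 : o (e00 hvq (Sum.inr i)) ∉ Set.range (pre o (e00 hvq (Sum.inr j))) := by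
        apply pre_range o.injective
        rw [e00_inr_val, e00_inr_val]
        exact Nat.add_lt_add_left hji' v
      rw [hent, ppol_der0 Q (G o) (e00 hvq (Sum.inr j)) k ω _ h1, map_zero]
    have hdet : (rmx ((e00 hvq).trans o) (fun j => gf V Q G k ω (e00 hvq (Sum.inr j))) (Q.v k ω)).det =
        ∏ j : Fin q, MvPolynomial.eval (Q.v k ω) (MvPolynomial.pderiv (o (e00 hvq (Sum.inr j)))
          (ppol Q o (G o) (e00 hvq (Sum.inr j)) k ω)) := by
      rw [Matrix.det_of_isLowerTriangular _ htri]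
      exact Finset.prod_congr rfl fun j _ => hent j j
    rw [hdet, Finset.abs_prod]
    have e2 : (2 : ℝ) ^ ((∑ j, gw V Q G k ω (e00 hvq (Sum.inr j)) - η) * (S.F k).n) ≤
        ∏ j : Fin q, 2 ^ ((gw V Q G k ω (e00 hvq (Sum.inr j)) - η / (q + 1)) * (S.F k).n) := by
      rw [← Real.rpow_sum_of_pos (by norm_num), ← Finset.sum_mul, Finset.sum_sub_distrib, Finset.sum_const,
        Finset.card_univ, Fintype.card_fin, nsmul_eq_mul]
      apply Real.rpow_le_rpow_of_exponent_le (by norm_num)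
      apply mul_le_mul_of_nonneg_right _ hn.le
      have h1 : (q : ℝ) * (η / (q + 1)) ≤ η := by
        rw [mul_div_assoc', div_le_iff₀ hqp]
        nlinarith
      linarith
    exact e2.trans (Finset.prod_le_prod (fun j _ => by positivity) fun j _ => h o (e00 hvq (Sum.inr j)))
  · intro ε hε
    have hv1 : (0 : ℝ) < v + 1 := by positivity
    have he : 0 < ε / 2 / (v + 1) := by positivity
    have h3 : Tendsto (fun k => (v : ℝ) * (S.F k).pb (fun ω => ¬ ∀ j : Fin v,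
        gw V Q G k ω (e00 hvq (Sum.inl j)) ≤ ε / 2 / (v + 1))) UF (𝓝 (v * 0)) :=
      Tendsto.const_mul (v : ℝ) (h0 _ he)
    rw [mul_zero] at h3
    filter_upwards [h3.eventually (gt_mem_nhds (show (0 : ℝ) < ε / 2 by linarith))] with k h4
    have hn := (S.F k).pos
    have h5 := gw_sum (Q := Q) (G := G) (V := V) k
    have hsplit : ∀ ω, ∑ j : Fin N, gw V Q G k ω j = ∑ j : Fin v, gw V Q G k ω (e00 hvq (Sum.inl j)) +
        ∑ j : Fin q, gw V Q G k ω (e00 hvq (Sum.inr j)) := by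
      intro ω
      rw [← Equiv.sum_comp (e00 hvq), Fintype.sum_sum_type]
    have hsm : ∑ ω, (S.F k).μ ω * ∑ j : Fin v, gw V Q G k ω (e00 hvq (Sum.inl j)) ≤ ε := by
      have h6 : ∀ ω, (S.F k).μ ω * ∑ j : Fin v, gw V Q G k ω (e00 hvq (Sum.inl j)) ≤ (S.F k).μ ω * (ε / 2) +
          v * res (S.F k).μ (fun ω => ¬ ∀ j : Fin v, gw V Q G k ω (e00 hvq (Sum.inl j)) ≤ ε / 2 / (v + 1)) ω := by
        intro ω
        have h7 := (S.F k).nn ω
        by_cases h8 : ∀ j : Fin v, gw V Q G k ω (e00 hvq (Sum.inl j)) ≤ ε / 2 / (v + 1)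
        · rw [res_neg _ (fun ω => ¬ ∀ j : Fin v, gw V Q G k ω (e00 hvq (Sum.inl j)) ≤ ε / 2 / (v + 1)) _
            (not_not.mpr h8), mul_zero, add_zero]
          apply mul_le_mul_of_nonneg_left _ h7
          refine (Finset.sum_le_card_nsmul _ _ _ fun j _ => h8 j).trans ?_
          rw [Finset.card_univ, Fintype.card_fin, nsmul_eq_mul, mul_div_assoc', div_le_iff₀ hv1]
          nlinarith
        · rw [res_pos _ (fun ω => ¬ ∀ j : Fin v, gw V Q G k ω (e00 hvq (Sum.inl j)) ≤ ε / 2 / (v + 1)) _ h8]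
          have h9 : ∑ j : Fin v, gw V Q G k ω (e00 hvq (Sum.inl j)) ≤ v := by
            refine (Finset.sum_le_card_nsmul _ _ 1 fun j _ => gw_le_one k ω _).trans (le_of_eq ?_)
            rw [Finset.card_univ, Fintype.card_fin, nsmul_eq_mul, mul_one]
          have h10 := mul_le_mul_of_nonneg_left h9 h7
          have h11 : 0 ≤ (S.F k).μ ω * (ε / 2) := by positivity
          linarith
      have h7 := Finset.sum_le_sum fun ω (_ : ω ∈ Finset.univ) => h6 ω
      have h8 : ∑ ω, (S.F k).μ ω = 1 := (S.F k).ms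
      rw [Finset.sum_add_distrib, ← Finset.sum_mul, ← Finset.mul_sum, h8, one_mul] at h7
      have h9 : ∑ ω, res (S.F k).μ (fun ω => ¬ ∀ j : Fin v, gw V Q G k ω (e00 hvq (Sum.inl j)) ≤ ε / 2 / (v + 1)) ω =
        (S.F k).pb (fun ω => ¬ ∀ j : Fin v, gw V Q G k ω (e00 hvq (Sum.inl j)) ≤ ε / 2 / (v + 1)) := rfl
      rw [h9] at h7
      linarith
    have hsum : ∑ ω, (S.F k).μ ω * ∑ j : Fin N, gw V Q G k ω j =
        ∑ ω, (S.F k).μ ω * ∑ j : Fin v, gw V Q G k ω (e00 hvq (Sum.inl j)) +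
        ∑ ω, (S.F k).μ ω * ∑ j : Fin q, gw V Q G k ω (e00 hvq (Sum.inr j)) := by
      rw [← Finset.sum_add_distrib]
      refine Finset.sum_congr rfl fun ω _ => ?_
      rw [hsplit]
      ring
    rw [hsum] at h5
    nlinarith

end

end

end Pool.Agent.Helper76.FDG
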